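import Pool.Agent.N13.QC.Stm

/-!
Project QC (helper13), leaf C: the counting lemma (helper152).
-/

set_option autoImplicit false

open scoped Classical

namespace Pool.Agent.N13.QC

namespace CtAux

variable {X Y : Type} {N : Y → X → Prop}

/-- the label is in `Y` -/
def IsY (a : Option (X ⊕ Y)) : Prop := ∃ y, a = some (Sum.inr y)

theorem isY_lab {p : RW X} {T : RW X ⊕ Wl N} (h : IsY (lab p T)) :
    ∃ D, T = Sum.inr D ∧ D.mem p ∧ lab p T = some (Sum.inr D.y) := by
  obtain ⟨y, hy⟩ := h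
  rcases T with f | D
  · exfalso
    have h1 : (dir p f).map (Sum.inl : X → X ⊕ Y) = some (Sum.inr y) := hy
    rw [Option.map_eq_some_iff] at h1
    obtain ⟨x, -, hx⟩ := h1
    cases hx
  · refine ⟨D, rfl, ?_⟩
    by_cases hD : D.mem p
    · exact ⟨hD, if_pos hD⟩
    · exfalso
      have h0 : lab p (Sum.inr D) = (dir p D.g).map (Sum.inl : X → X ⊕ Y) := if_neg hD
      rw [h0, Option.map_eq_some_iff] at hy
      obtain ⟨x, -, hx⟩ := hy
      cases hx

theorem lab_mem {p : RW X} {D : Wl N} (h : D.mem p) : lab p (Sum.inr D) = some (Sum.inr D.y) :=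
  if_pos h

/-- the tree property for targets -/
theorem tree (w3 : S_W3) (a3 : S_A3) {p q : RW X} (hpq : p ≠ q) (T : RW X ⊕ Wl N)
    (h : ¬ (IsY (lab p T) ∧ IsY (lab q T))) :
    lab p T = (dir p q).map Sum.inl ∨ lab q T = (dir q p).map Sum.inl := by
  rcases T with f | D
  · rcases (w3 X p q f).2 hpq with h1 | h1
    · left
      show (dir p f).map (Sum.inl : X → X ⊕ Y) = _
      rw [h1]
    · right
      show (dir q f).map (Sum.inl : X → X ⊕ Y) = _
      rw [h1]
  · refine a3 X Y N D p q hpq fun hm => h ?_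
    exact ⟨⟨_, lab_mem hm.1⟩, ⟨_, lab_mem hm.2⟩⟩

/-- pigeonhole -/
theorem pigeon (P Q : Fin 3 → Prop) (h : ∀ i, P i ∨ Q i) :
    ∃ i j, i ≠ j ∧ ((P i ∧ P j) ∨ (Q i ∧ Q j)) := by
  rcases h 0 with h0 | h0 <;> rcases h 1 with h1 | h1 <;> rcases h 2 with h2 | h2
  · exact ⟨0, 1, by decide, Or.inl ⟨h0, h1⟩⟩
  · exact ⟨0, 1, by decide, Or.inl ⟨h0, h1⟩⟩
  · exact ⟨0, 2, by decide, Or.inl ⟨h0, h2⟩⟩
  · exact ⟨1, 2, by decide, Or.inr ⟨h1, h2⟩⟩
  · exact ⟨1, 2, by decide, Or.inl ⟨h1, h2⟩⟩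
  · exact ⟨0, 2, by decide, Or.inr ⟨h0, h2⟩⟩
  · exact ⟨0, 1, by decide, Or.inr ⟨h0, h1⟩⟩
  · exact ⟨0, 1, by decide, Or.inr ⟨h0, h1⟩⟩

/-- not tame -/
def NT (N : Y → X → Prop) (a : Fin 3 → Option (X ⊕ Y)) : Prop := ¬ Tame N (a 0) (a 1) (a 2)

theorem NT.inj {a : Fin 3 → Option (X ⊕ Y)} (h : NT N a) (i j : Fin 3) (hij : i ≠ j) : a i ≠ a j := by
  intro he
  apply h
  fin_cases i <;> fin_cases j
  · exact absurd rfl hij
  · exact Or.inl he
  · exact Or.inr (Or.inr (Or.inl he))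
  · exact Or.inl he.symm
  · exact absurd rfl hij
  · exact Or.inr (Or.inl he)
  · exact Or.inr (Or.inr (Or.inl he.symm))
  · exact Or.inr (Or.inl he.symm)
  · exact absurd rfl hij

theorem NT.cen {a : Fin 3 → Option (X ⊕ Y)} (h : NT N a) (z : X ⊕ Y) : ¬ ∀ l, InB N z (a l) :=
  fun hz => h (Or.inr (Or.inr (Or.inr ⟨z, hz 0, hz 1, hz 2⟩)))

/-- the classes -/
def Cls (N : Y → X → Prop) (c : Fin 3 × Fin 3) (a : Fin 3 → Option (X ⊕ Y)) : Prop :=
  (c = (0, 0) ∧ ∀ k, ¬ IsY (a k)) ∨ (c = (1, 1) ∧ ∀ k, IsY (a k)) ∨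
  (c.1 ≠ c.2 ∧ IsY (a c.1) ∧ ¬ IsY (a c.2) ∧
    ¬ ∃ y x, a c.1 = some (Sum.inr y) ∧ a c.2 = some (Sum.inl x) ∧ N y x)

theorem one {a : Fin 3 → Option (X ⊕ Y)} (h : NT N a) (i j k : Fin 3) (hijk : ∀ l, l = i ∨ l = j ∨ l = k)
    (hij : i ≠ j) (hik : i ≠ k) (h1 : IsY (a i)) (h2 : ¬ IsY (a j)) (h3 : ¬ IsY (a k)) :
    Cls N (i, j) a ∨ Cls N (i, k) a := by
  by_cases e1 : ∃ y x, a i = some (Sum.inr y) ∧ a j = some (Sum.inl x) ∧ N y x
  · by_cases e2 : ∃ y x, a i = some (Sum.inr y) ∧ a k = some (Sum.inl x) ∧ N y x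
    · exfalso
      obtain ⟨y, x, f1, f2, f3⟩ := e1
      obtain ⟨y', x', f1', f2', f3'⟩ := e2
      have hy : y = y' := by
        have := f1.symm.trans f1'
        injection this with this
        injection this
      subst hy
      refine h.cen (Sum.inr y) fun l => ?_
      rcases hijk l with rfl | rfl | rfl
      · exact Or.inl f1
      · exact Or.inr ⟨_, f2, f3⟩
      · exact Or.inr ⟨_, f2', f3'⟩
    · exact Or.inr (Or.inr (Or.inr ⟨hik, h1, h3, e2⟩))
  · exact Or.inl (Or.inr (Or.inr ⟨hij, h1, h2, e1⟩))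

theorem two {a : Fin 3 → Option (X ⊕ Y)} (h : NT N a) (i j k : Fin 3) (hijk : ∀ l, l = i ∨ l = j ∨ l = k)
    (hik : i ≠ k) (hjk : j ≠ k) (h1 : IsY (a i)) (h2 : IsY (a j)) (h3 : ¬ IsY (a k)) :
    Cls N (i, k) a ∨ Cls N (j, k) a := by
  by_cases e1 : ∃ y x, a i = some (Sum.inr y) ∧ a k = some (Sum.inl x) ∧ N y x
  · by_cases e2 : ∃ y x, a j = some (Sum.inr y) ∧ a k = some (Sum.inl x) ∧ N y x
    · exfalso
      obtain ⟨y, x, f1, f2, f3⟩ := e1
      obtain ⟨y', x', f1', f2', f3'⟩ := e2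
      have hx : x = x' := by
        have := f2.symm.trans f2'
        injection this with this
        injection this
      subst hx
      refine h.cen (Sum.inl x) fun l => ?_
      rcases hijk l with rfl | rfl | rfl
      · exact Or.inr ⟨_, f1, f3⟩
      · exact Or.inr ⟨_, f1', f3'⟩
      · exact Or.inl f2
    · exact Or.inr (Or.inr (Or.inr ⟨hjk, h2, h3, e2⟩))
  · exact Or.inl (Or.inr (Or.inr ⟨hik, h1, h3, e1⟩))

theorem cover {a : Fin 3 → Option (X ⊕ Y)} (h : NT N a) :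
    ∃ c ∈ (Finset.univ : Finset (Fin 3 × Fin 3)).erase (2, 2), Cls N c a := by
  have hI : ∀ c : Fin 3 × Fin 3, c ≠ (2, 2) → Cls N c a →
      ∃ c ∈ (Finset.univ : Finset (Fin 3 × Fin 3)).erase (2, 2), Cls N c a :=
    fun c hc hcl => ⟨c, Finset.mem_erase.2 ⟨hc, Finset.mem_univ _⟩, hcl⟩
  by_cases h0 : IsY (a 0) <;> by_cases h1 : IsY (a 1) <;> by_cases h2 : IsY (a 2)
  · refine hI (1, 1) (by decide) (Or.inr (Or.inl ⟨rfl, fun k => ?_⟩))
    fin_cases k
    · exact h0
    · exact h1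
    · exact h2
  · rcases two h 0 1 2 (by decide) (by decide) (by decide) h0 h1 h2 with hc | hc
    · exact hI _ (by decide) hc
    · exact hI _ (by decide) hc
  · rcases two h 0 2 1 (by decide) (by decide) (by decide) h0 h2 h1 with hc | hc
    · exact hI _ (by decide) hc
    · exact hI _ (by decide) hc
  · rcases one h 0 1 2 (by decide) (by decide) (by decide) h0 h1 h2 with hc | hc
    · exact hI _ (by decide) hc
    · exact hI _ (by decide) hc
  · rcases two h 1 2 0 (by decide) (by decide) (by decide) h1 h2 h0 with hc | hc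
    · exact hI _ (by decide) hc
    · exact hI _ (by decide) hc
  · rcases one h 1 0 2 (by decide) (by decide) (by decide) h1 h0 h2 with hc | hc
    · exact hI _ (by decide) hc
    · exact hI _ (by decide) hc
  · rcases one h 2 0 1 (by decide) (by decide) (by decide) h2 h0 h1 with hc | hc
    · exact hI _ (by decide) hc
    · exact hI _ (by decide) hc
  · refine hI (0, 0) (by decide) (Or.inl ⟨rfl, fun k => ?_⟩)
    fin_cases k
    · exact h0
    · exact h1
    · exact h2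

/-- each class contains at most one point -/
theorem sub (w3 : S_W3) (a2 : S_A2) (a3 : S_A3) (T : Fin 3 → RW X ⊕ Wl N) (p q : RW X)
    (hp : NT N fun i => lab p (T i)) (hq : NT N fun i => lab q (T i)) (c : Fin 3 × Fin 3)
    (hcp : Cls N c fun i => lab p (T i)) (hcq : Cls N c fun i => lab q (T i)) : p = q := by
  by_contra hpq
  rcases hcp with ⟨hc, h1⟩ | ⟨hc, h1⟩ | ⟨hc, h1, h2, h3⟩
  · -- no label in `Y`
    obtain ⟨i, j, hij, h | h⟩ := pigeon (fun i => lab p (T i) = (dir p q).map Sum.inl)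
      (fun i => lab q (T i) = (dir q p).map Sum.inl)
      (fun i => tree w3 a3 hpq (T i) fun h => h1 i h.1)
    · exact hp.inj i j hij (h.1.trans h.2.symm)
    · exact hq.inj i j hij (h.1.trans h.2.symm)
  · -- all labels in `Y`
    have h1q : ∀ k, IsY (lab q (T k)) := by
      rcases hcq with ⟨hc', _⟩ | ⟨_, h'⟩ | ⟨hc', _⟩
      · rw [hc] at hc'
        exact absurd hc' (by decide)
      · exact h'
      · rw [hc] at hc'
        exact absurd rfl hc'
    have key : ∀ k, ∃ x, dir p q = some x ∧ ∃ y, lab p (T k) = some (Sum.inr y) ∧ N y x := by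
      intro k
      obtain ⟨D, hD, hm, hl⟩ := isY_lab (h1 k)
      obtain ⟨D', hD', hm', -⟩ := isY_lab (h1q k)
      have hDD : D = D' := by
        have := hD.symm.trans hD'
        injection this
      subst hDD
      obtain ⟨x, hx, hN⟩ := a2 X Y N D p q hm hm' hpq
      exact ⟨x, hx, D.y, hl, hN⟩
    obtain ⟨x, hx, -⟩ := key 0
    refine hp.cen (Sum.inl x) fun k => ?_
    obtain ⟨x', hx', y, hl, hN⟩ := key k
    have hxx : x = x' := by
      have := hx.symm.trans hx'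
      injection this
    subst hxx
    exact Or.inr ⟨_, hl, hN⟩
  · -- mixed
    obtain ⟨g1, g2, g3⟩ : IsY (lab q (T c.1)) ∧ ¬ IsY (lab q (T c.2)) ∧
        ¬ ∃ y x, lab q (T c.1) = some (Sum.inr y) ∧ lab q (T c.2) = some (Sum.inl x) ∧ N y x := by
      rcases hcq with ⟨hc', _⟩ | ⟨hc', _⟩ | ⟨_, h'⟩
      · rw [hc'] at hc
        exact absurd rfl hc
      · rw [hc'] at hc
        exact absurd rfl hc
      · exact h'
    obtain ⟨D, hD, hm, hl⟩ := isY_lab h1
    obtain ⟨D', hD', hm', hl'⟩ := isY_lab g1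
    have hDD : D = D' := by
      have := hD.symm.trans hD'
      injection this
    subst hDD
    obtain ⟨x, hx, hN⟩ := a2 X Y N D p q hm hm' hpq
    obtain ⟨x', hx', hN'⟩ := a2 X Y N D q p hm' hm (Ne.symm hpq)
    rcases tree w3 a3 hpq (T c.2) fun h => h2 h.1 with h4 | h4
    · rw [hx] at h4
      exact h3 ⟨D.y, x, hl, h4, hN⟩
    · rw [hx'] at h4
      exact g3 ⟨D.y, x', hl', h4, hN'⟩

/-- a set covered by subsingletons -/
theorem finset_of_cover {A C : Type} (S : Set A) (I : Finset C) (B : C → Set A)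
    (hB : ∀ c ∈ I, (B c).Subsingleton) (h : ∀ v ∈ S, ∃ c ∈ I, v ∈ B c) :
    ∃ s : Finset A, s.card ≤ I.card ∧ ∀ v ∈ S, v ∈ s := by
  refine ⟨I.biUnion fun c => if hc : (B c).Nonempty then {hc.some} else ∅, ?_, ?_⟩
  · have := Finset.card_biUnion_le_card_mul I
      (fun c => if hc : (B c).Nonempty then ({hc.some} : Finset A) else ∅) 1 (by
        intro c _
        split_ifs
        · rw [Finset.card_singleton]
        · rw [Finset.card_empty]
          exact Nat.zero_le _)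
    rwa [mul_one] at this
  · intro v hv
    obtain ⟨c, hc, hvc⟩ := h v hv
    rw [Finset.mem_biUnion]
    refine ⟨c, hc, ?_⟩
    have hne : (B c).Nonempty := ⟨v, hvc⟩
    rw [dif_pos hne, Finset.mem_singleton]
    exact hB c hc hvc hne.some_mem

theorem tgt_some {m : RW (Wl N)} {v : Om N} {D : Wl N} (h : dir m v.1 = some D) :
    tgt m v = Sum.inr D := by
  unfold tgt
  rw [h]

end CtAux

open CtAux in
/-- the counting lemma -/
theorem t_C (w3 : S_W3) (a2 : S_A2) (a3 : S_A3) : S_C := by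
  intro X Y N g₀ g₁ g₂
  obtain ⟨g, hg⟩ : ∃ g : Fin 3 → Om N, g = ![g₀, g₁, g₂] := ⟨_, rfl⟩
  have hNT : ∀ v : Om N, ¬ Tame N (lam v g₀) (lam v g₁) (lam v g₂) → NT N fun i => lam v (g i) := by
    intro v hv
    rw [hg]
    exact hv
  -- the first coordinates agree
  have hfst : ∀ v v' : Om N, (NT N fun i => lam v (g i)) → (NT N fun i => lam v' (g i)) →
      v.1 = v'.1 := by
    intro v v' hv hv'
    by_contra hne
    have key : ∀ (v v' : Om N), v.1 ≠ v'.1 → (NT N fun i => lam v (g i)) → ∀ i j, i ≠ j →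
        dir v.1 (g i).1 = dir v.1 v'.1 → dir v.1 (g j).1 = dir v.1 v'.1 → False := by
      intro v v' hne hv i j hij h1 h2
      obtain ⟨D, hD⟩ : ∃ D, dir v.1 v'.1 = some D := by
        rw [← Option.ne_none_iff_exists']
        intro h0
        exact hne (((w3 (Wl N) v.1 v'.1 v'.1).1).1 h0)
      refine hv.inj i j hij ?_
      show lab v.2 (tgt v.1 (g i)) = lab v.2 (tgt v.1 (g j))
      rw [tgt_some (h1.trans hD), tgt_some (h2.trans hD)]
    obtain ⟨i, j, hij, h | h⟩ := pigeon (fun i => dir v.1 (g i).1 = dir v.1 v'.1)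
      (fun i => dir v'.1 (g i).1 = dir v'.1 v.1)
      (fun i => (w3 (Wl N) v.1 v'.1 (g i).1).2 hne)
    · exact key v v' hne hv i j hij h.1 h.2
    · exact key v' v (Ne.symm hne) hv' i j hij h.1 h.2
  obtain ⟨s, hs1, hs2⟩ := finset_of_cover {v : Om N | NT N fun i => lam v (g i)}
    ((Finset.univ : Finset (Fin 3 × Fin 3)).erase (2, 2))
    (fun c => {v : Om N | (NT N fun i => lam v (g i)) ∧ Cls N c fun i => lam v (g i)})
    (by
      rintro c _ v ⟨h1, h2⟩ v' ⟨h1', h2'⟩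
      have hf := hfst v v' h1 h1'
      refine Prod.ext hf ?_
      have e : ∀ i, lam v' (g i) = lab v'.2 (tgt v.1 (g i)) := by
        intro i
        unfold lam
        rw [hf]
      simp only [e] at h1' h2'
      exact sub w3 a2 a3 (fun i => tgt v.1 (g i)) v.2 v'.2 h1 h1' c h2 h2')
    (by
      intro v hv
      have hv' : NT N fun i => lam v (g i) := hv
      obtain ⟨c, hc, hcl⟩ := cover hv'
      exact ⟨c, hc, hv', hcl⟩)
  refine ⟨s, ?_, fun v hv => hs2 v (hNT v hv)⟩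
  refine hs1.trans (le_of_eq ?_)
  rfl

end Pool.Agent.N13.QC
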