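import Pool.Agent.N13.QC.Stm

/-! Project QC, leaf G (helper123): the action of the letters on `Om N`. -/

set_option autoImplicit false

open scoped Classical

namespace Pool.Agent.N13.QC

namespace G

variable {X Y : Type} {N : Y → X → Prop}

/-- the action of the letters -/
noncomputable def ax (h : ∀ x : X, Function.Injective (Wl.act (N := N) x)) :
    X ⊕ Y → Om N → Om N
  | Sum.inl x, v => (RW.map (Wl.act x) (h x) v.1, RW.mul x v.2)
  | Sum.inr y, v => (RW.mul (Wl.base N y) v.1, v.2)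

theorem eps_eq (u : Om N) : eps u = (-1) ^ u.1.1.length * (-1) ^ u.2.1.length := by
  rw [eps, pow_add]

theorem map_len {S T : Type} (σ : S → T) (hσ : Function.Injective σ) (w : RW S) :
    (RW.map σ hσ w).1.length = w.1.length := List.length_map _

theorem map_map_id {S : Type} (σ : S → S) (hσ : Function.Injective σ) (h : ∀ s, σ (σ s) = s)
    (w : RW S) : RW.map σ hσ (RW.map σ hσ w) = w := by
  apply Subtype.ext
  show (w.1.map σ).map σ = w.1
  rw [List.map_map]
  have : σ ∘ σ = id := funext h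
  rw [this, List.map_id]

/-- the target as a function of the direction -/
def pick : Option (Wl N) → RW X → RW X ⊕ Wl N
  | none, f => Sum.inl f
  | some D, _ => Sum.inr D

theorem tgt_eq (m : RW (Wl N)) (v : Om N) : tgt m v = pick (dir m v.1) v.2 := by
  unfold tgt
  cases dir m v.1 <;> rfl

theorem dir_map (w4 : S_W4) {S T : Type} (σ : S → T) (hσ : Function.Injective σ) (p f : RW S) :
    dir (RW.map σ hσ p) (RW.map σ hσ f) = (dir p f).map σ := by
  by_cases hne : Nonempty S
  · obtain ⟨s⟩ := hne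
    exact (w4 S T σ hσ s p f).2
  · have h : ∀ q : RW S, q.1 = [] := by
      intro q
      rcases hq : q.1 with _ | ⟨t, l⟩
      · rfl
      · exact absurd ⟨t⟩ hne
    have h1 : ∀ q : RW S, (RW.map σ hσ q).1 = [] := by
      intro q
      show q.1.map σ = []
      rw [h q]
      rfl
    unfold dir
    rw [h1 p, h1 f, h p, h f]
    simp

end G

theorem t_G (w1 : S_W1) (w2 : S_W2) (w4 : S_W4) (a1 : S_A1) : S_G := by
  intro X Y N
  have hinv : ∀ (x : X) (D : Wl N), Wl.act x (Wl.act x D) = D := fun x D =>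
    (a1 X Y N x D RW.nil).1
  have hinj : ∀ x : X, Function.Injective (Wl.act (N := N) x) := fun x =>
    Function.Involutive.injective (hinv x)
  have hbase : ∀ (x : X) (y : Y), N y x → Wl.act x (Wl.base N y) = Wl.base N y := by
    intro x y h
    unfold Wl.act
    rw [dif_pos]
    exact ⟨rfl, h⟩
  refine ⟨G.ax hinj, ?_, ?_, ?_, ?_, ?_, ?_⟩
  · rintro (x | y) v
    · show (RW.map (Wl.act x) (hinj x) (RW.map (Wl.act x) (hinj x) v.1),
        RW.mul x (RW.mul x v.2)) = v
      rw [G.map_map_id _ _ (hinv x), (w1 X x v.2).1]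
    · show (RW.mul (Wl.base N y) (RW.mul (Wl.base N y) v.1), v.2) = v
      rw [(w1 (Wl N) (Wl.base N y) v.1).1]
  · rintro (x | y) v
    · rw [G.eps_eq, G.eps_eq]
      show (-1 : ℝ) ^ (RW.map (Wl.act x) (hinj x) v.1).1.length *
        (-1 : ℝ) ^ (RW.mul x v.2).1.length = _
      rw [G.map_len, (w1 X x v.2).2]
      ring
    · rw [G.eps_eq, G.eps_eq]
      show (-1 : ℝ) ^ (RW.mul (Wl.base N y) v.1).1.length * (-1 : ℝ) ^ v.2.1.length = _
      rw [(w1 (Wl N) (Wl.base N y) v.1).2]
      ring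
  · rintro (x | y) u v
    · show lab (RW.mul x u.2) (tgt (RW.map (Wl.act x) (hinj x) u.1)
        (RW.map (Wl.act x) (hinj x) v.1, RW.mul x v.2)) = lab u.2 (tgt u.1 v)
      rw [G.tgt_eq, G.tgt_eq]
      show lab (RW.mul x u.2) (G.pick (dir (RW.map (Wl.act x) (hinj x) u.1)
        (RW.map (Wl.act x) (hinj x) v.1)) (RW.mul x v.2)) = _
      rw [G.dir_map w4]
      cases dir u.1 v.1 with
      | none =>
        show (dir (RW.mul x u.2) (RW.mul x v.2)).map Sum.inl = (dir u.2 v.2).map Sum.inl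
        rw [w2 X x u.2 v.2]
      | some D => exact (a1 X Y N x D u.2).2.2.2
    · show lab u.2 (tgt (RW.mul (Wl.base N y) u.1) (RW.mul (Wl.base N y) v.1, v.2)) =
        lab u.2 (tgt u.1 v)
      rw [G.tgt_eq, G.tgt_eq]
      show lab u.2 (G.pick (dir (RW.mul (Wl.base N y) u.1) (RW.mul (Wl.base N y) v.1)) v.2) = _
      rw [w2 (Wl N) (Wl.base N y) u.1 v.1]
  · rintro (x | y) (x' | y') v hN
    · exact hN.elim
    · have hN' : N y' x := hN
      show (RW.map (Wl.act x) (hinj x) (RW.mul (Wl.base N y') v.1), RW.mul x v.2) =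
        (RW.mul (Wl.base N y') (RW.map (Wl.act x) (hinj x) v.1), RW.mul x v.2)
      rw [(w4 (Wl N) (Wl N) (Wl.act x) (hinj x) (Wl.base N y') v.1 v.1).1, hbase x y' hN']
    · have hN' : N y x' := hN
      show (RW.mul (Wl.base N y) (RW.map (Wl.act x') (hinj x') v.1), RW.mul x' v.2) =
        (RW.map (Wl.act x') (hinj x') (RW.mul (Wl.base N y) v.1), RW.mul x' v.2)
      rw [(w4 (Wl N) (Wl N) (Wl.act x') (hinj x') (Wl.base N y) v.1 v.1).1, hbase x' y hN']
    · exact hN.elim
  · intro x
    rfl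
  · intro y v
    rfl

end Pool.Agent.N13.QC
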