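import Pool.Agent.N13.QC.Stm2

/-!
QC/H (helper644): the cochains on the right-angled Coxeter group.
-/

set_option autoImplicit false

open scoped Classical

namespace Pool.Agent.N13.QC

open Pool.Agent.W907.SG (W cox chiW)
open Pool.Agent.Q134.SV

namespace Hm

section

variable {V : Type} (G : SimpleGraph V) (col : V → ℕ) (i : ℕ)

/-- the first colour class -/
abbrev XX : Type := {v : V // col v = 2 * i}

/-- the second colour class -/
abbrev YY : Type := {v : V // col v = 2 * i + 1}

/-- adjacency -/
def NN : YY col i → XX col i → Prop := fun y x => G.Adj y.1 x.1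

/-- the underlying vertex -/
def vl : XX col i ⊕ YY col i → V := Sum.elim Subtype.val Subtype.val

lemma vl_inP (a : XX col i ⊕ YY col i) : InP col i (vl col i a) := by
  rcases a with x | y
  · exact Or.inl x.2
  · exact Or.inr y.2

lemma nb_adj {a b : XX col i ⊕ YY col i} (h : Nb (NN G col i) a b) : G.Adj (vl col i a) (vl col i b) := by
  rcases a with x | y <;> rcases b with x' | y'
  · exact h.elim
  · exact SimpleGraph.Adj.symm h
  · exact h
  · exact h.elim

/-- a vertex of one of the two colours -/
noncomputable def emb (v : V) : Option (XX col i ⊕ YY col i) :=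
  if h : col v = 2 * i then some (Sum.inl ⟨v, h⟩)
  else if h' : col v = 2 * i + 1 then some (Sum.inr ⟨v, h'⟩) else none

lemma emb_none {v : V} (h : emb col i v = none) : ¬ InP col i v := by
  unfold emb at h
  unfold InP
  split_ifs at h with h1 h2
  exact fun h3 => h3.elim h1 h2

lemma emb_some {v : V} {a : XX col i ⊕ YY col i} (h : emb col i v = some a) : vl col i a = v := by
  unfold emb at h
  split_ifs at h with h1 h2
  · rw [← Option.some.inj h]
    rfl
  · rw [← Option.some.inj h]
    rfl

lemma adj_nb (hc : ∀ u v, G.Adj u v → col u ≠ col v) {u v : V} {a b : XX col i ⊕ YY col i}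
    (ha : emb col i u = some a) (hb : emb col i v = some b) (h : G.Adj u v) : Nb (NN G col i) a b := by
  have ha' := emb_some col i ha
  have hb' := emb_some col i hb
  have hne := hc u v h
  rcases a with x | y <;> rcases b with x' | y'
  · exfalso
    apply hne
    rw [← ha', ← hb']
    exact x.2.trans x'.2.symm
  · change G.Adj y'.1 x.1
    have e1 : x.1 = u := ha'
    have e2 : y'.1 = v := hb'
    rw [e1, e2]
    exact SimpleGraph.Adj.symm h
  · change G.Adj y.1 x'.1
    have e1 : y.1 = u := ha'
    have e2 : x'.1 = v := hb'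
    rw [e1, e2]
    exact h
  · exfalso
    apply hne
    rw [← ha', ← hb']
    exact y.2.trans y'.2.symm

end

end Hm

open Hm in
theorem t_H (g : S_G) (k1 : S_K1) (k2 : S_K2) (k3 : S_K3) (p : S_P) : S_H := by
  intro V _ G col hcol i ι _ φ B hanti hadd hB hB0
  obtain ⟨ax, hinv, heps, hlam, hcomm, hx, hy⟩ := g (XX col i) (YY col i) (NN G col i)
  obtain ⟨P, hP, hPφ, hPB⟩ := p (XX col i) (YY col i) (NN G col i) ι
    (fun j a b => φ j (vl col i a) (vl col i b)) B (fun j a b => hanti j _ _)
    (fun j a b z z' h1 h2 h3 h4 => hadd j _ _ _ _ (vl_inP col i a) (vl_inP col i b) (vl_inP col i z)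
      (vl_inP col i z') (nb_adj G col i h1) (nb_adj G col i h2) (nb_adj G col i h3) (nb_adj G col i h4))
    (fun a b h => hB _ _ (vl_inP col i a) (vl_inP col i b) (nb_adj G col i h)) hB0
  obtain ⟨c1, c2, c3⟩ := k1 (XX col i) (YY col i) (NN G col i) ι P (2 * B) hP hPB
  -- the permutations
  let A : Option (XX col i ⊕ YY col i) → Equiv.Perm (Om (NN G col i)) := fun a => match a with
    | none => 1
    | some a => Function.Involutive.toPerm (ax a) (hinv a)
  have hA1 : A none = 1 := rfl
  have hA2 : ∀ a v, A (some a) v = ax a v := fun a v => rfl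
  let ρ : V → Equiv.Perm (Om (NN G col i)) := fun v => A (emb col i v)
  have h2 : ∀ x, ρ x * ρ x = 1 := by
    intro x
    show A (emb col i x) * A (emb col i x) = 1
    rcases emb col i x with _ | a
    · rw [hA1, one_mul]
    · ext1 v
      exact hinv a v
  have hc : ∀ x y, G.Adj x y → ρ x * ρ y = ρ y * ρ x := by
    intro x y hxy
    show A (emb col i x) * A (emb col i y) = A (emb col i y) * A (emb col i x)
    rcases hex : emb col i x with _ | a
    · rw [hA1, one_mul, mul_one]
    · rcases hey : emb col i y with _ | b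
      · rw [hA1, one_mul, mul_one]
      · ext1 v
        exact hcomm a b v (adj_nb G col i hcol hex hey hxy)
  let Φ : W G →* Equiv.Perm (Om (NN G col i)) := lft G ρ h2 hc
  have hΦ : ∀ x, Φ (gen G x) = A (emb col i x) := fun x => lft_gen G ρ h2 hc x
  let o : Om (NN G col i) := Om.o
  have ho : o = (RW.nil, RW.nil) := rfl
  refine ⟨fun j g₀ g₁ g₂ => cc (P j) (Φ g₀ o) (Φ g₁ o) (Φ g₂ o), ?_, ?_, ?_, ?_, ?_⟩
  · intro j s g₀ g₁ g₂
    show cc (P j) (Φ (gen G s * g₀) o) (Φ (gen G s * g₁) o) (Φ (gen G s * g₂) o) = _
    rw [map_mul, map_mul, map_mul, hΦ]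
    rcases hes : emb col i s with _ | a
    · rw [if_neg (emb_none col i hes), hA1, one_mul, one_mul, one_mul, one_mul]
    · have hin : InP col i s := by
        rw [← emb_some col i hes]
        exact vl_inP col i a
      rw [if_pos hin]
      have := k2 (XX col i) (YY col i) (NN G col i) (P j) (ax a) (hinv a) (heps a) (hlam a)
        (Φ g₀ o) (Φ g₁ o) (Φ g₂ o)
      rw [neg_one_mul]
      exact this
  · intro j g₀ g₁ g₂ g₃
    exact c1 j _ _ _ _
  · intro j g h
    exact c2 j _ _
  · intro g₀ g₁ g₂
    refine (c3 _ _ _).trans (le_of_eq ?_)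
    ring
  · intro j s t hst
    show cc (P j) (Φ 1 o) (Φ (gen G s) o) (Φ (gen G s * gen G t) o) = _
    rw [map_one, map_mul, hΦ, hΦ]
    rcases hes : emb col i s with _ | a
    · rw [if_neg (fun h => emb_none col i hes h.1), hA1]
      exact (c2 j _ _).1
    · rcases het : emb col i t with _ | b
      · rw [if_neg (fun h => emb_none col i het h.2), hA1, mul_one]
        exact (c2 j _ _).2
      · have ea := emb_some col i hes
        have eb := emb_some col i het
        have hin : InP col i s ∧ InP col i t := by
          rw [← ea, ← eb]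
          exact ⟨vl_inP col i a, vl_inP col i b⟩
        rw [if_pos hin]
        have hnb := adj_nb G col i hcol hes het hst
        show cc (P j) o (ax a o) (ax a (ax b o)) = _
        rcases a with x | y <;> rcases b with x' | y'
        · exact hnb.elim
        · have hN : NN G col i y' x := hnb
          have e1 : ax (Sum.inl x) o = (RW.nil, RW.mul x RW.nil) := hx x
          have e2 : ax (Sum.inl x) (ax (Sum.inr y') o) =
              (RW.mul (Wl.base (NN G col i) y') RW.nil, RW.mul x RW.nil) := by
            rw [hcomm _ _ _ hnb, e1, hy]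
          rw [e1, e2, ho, (k3 (XX col i) (YY col i) (NN G col i) (P j) (hP j) x y' hN).1, hPφ j _ _ hnb, ← ea, ← eb]
        · have hN : NN G col i y x' := hnb
          have e1 : ax (Sum.inr y) o = (RW.mul (Wl.base (NN G col i) y) RW.nil, RW.nil) := hy y o
          have e2 : ax (Sum.inr y) (ax (Sum.inl x') o) =
              (RW.mul (Wl.base (NN G col i) y) RW.nil, RW.mul x' RW.nil) := by
            rw [hx, hy]
          rw [e1, e2, ho, (k3 (XX col i) (YY col i) (NN G col i) (P j) (hP j) x' y hN).2, hPφ j _ _ hnb, ← ea, ← eb]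
        · exact hnb.elim

end Pool.Agent.N13.QC

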