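import Pool.Agent.N13.QC.Stm

/-!
# QC/K1: the cochain: finiteness, cocycle identity, bound (helper482)
-/

set_option autoImplicit false

open scoped Classical

namespace Pool.Agent.N13.QC

namespace K1

variable {X Y : Type} {N : Y → X → Prop} {P : Option (X ⊕ Y) → Option (X ⊕ Y) → ℝ}

theorem diag (hP : Pot N P) (a : Option (X ⊕ Y)) : P a a = 0 := by
  have := hP.anti a a
  linarith

theorem ff_tame (hP : Pot N P) {a b c : Option (X ⊕ Y)} (h : Tame N a b c) : FF P a b c = 0 := by
  unfold FF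
  rcases h with h | h | h | ⟨z, ha, hb, hc⟩
  · subst h
    have := hP.anti a c
    have := diag hP a
    linarith
  · subst h
    have := hP.anti a b
    have := diag hP b
    linarith
  · subst h
    have := hP.anti a b
    have := diag hP a
    linarith
  · have h1 := hP.add z a b ha hb
    have h2 := hP.add z b c hb hc
    have h3 := hP.add z c a hc ha
    have h4 := hP.anti a (some z)
    have h5 := hP.anti b (some z)
    have h6 := hP.anti c (some z)
    linarith

theorem cc_sum (hP : Pot N P) {g₀ g₁ g₂ : Om N} {s t : Finset (Om N)}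
    (hs : ∀ v : Om N, ¬ Tame N (lam v g₀) (lam v g₁) (lam v g₂) → v ∈ s) (hst : s ⊆ t) :
    cc P g₀ g₁ g₂ = ∑ v ∈ t, eps v * FF P (lam v g₀) (lam v g₁) (lam v g₂) := by
  unfold cc
  apply finsum_eq_sum_of_support_subset
  intro v hv
  rw [Function.mem_support] at hv
  refine Finset.mem_coe.2 (hst (hs v fun h => hv ?_))
  rw [ff_tame hP h, mul_zero]

theorem abs_eps (v : Om N) : |eps v| = 1 := by
  unfold eps
  rw [abs_pow, abs_neg, abs_one, one_pow]

end K1

open K1

theorem t_K1 (c : S_C) : S_K1 := by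
  intro X Y N ι _ P B hP hB
  have hB0 : 0 ≤ B := (Finset.sum_nonneg fun i _ => abs_nonneg _).trans (hB none none)
  refine ⟨fun i g₀ g₁ g₂ g₃ => ?_, fun i g h => ⟨?_, ?_⟩, fun g₀ g₁ g₂ => ?_⟩
  · obtain ⟨s0, -, h0⟩ := c X Y N g₁ g₂ g₃
    obtain ⟨s1, -, h1⟩ := c X Y N g₀ g₂ g₃
    obtain ⟨s2, -, h2⟩ := c X Y N g₀ g₁ g₃
    obtain ⟨s3, -, h3⟩ := c X Y N g₀ g₁ g₂
    rw [cc_sum (t := (s0 ∪ s1) ∪ (s2 ∪ s3)) (hP i) h0 fun v hv => by
        simp only [Finset.mem_union]; tauto,
      cc_sum (t := (s0 ∪ s1) ∪ (s2 ∪ s3)) (hP i) h1 fun v hv => by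
        simp only [Finset.mem_union]; tauto,
      cc_sum (t := (s0 ∪ s1) ∪ (s2 ∪ s3)) (hP i) h2 fun v hv => by
        simp only [Finset.mem_union]; tauto,
      cc_sum (t := (s0 ∪ s1) ∪ (s2 ∪ s3)) (hP i) h3 fun v hv => by
        simp only [Finset.mem_union]; tauto,
      ← Finset.sum_sub_distrib, ← Finset.sum_add_distrib, ← Finset.sum_sub_distrib]
    refine Finset.sum_eq_zero fun v _ => ?_
    unfold FF
    rw [(hP i).anti (lam v g₃) (lam v g₁), (hP i).anti (lam v g₃) (lam v g₀),
      (hP i).anti (lam v g₂) (lam v g₀)]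
    ring
  · unfold cc
    refine finsum_eq_zero_of_forall_eq_zero fun v => ?_
    rw [ff_tame (hP i) (Or.inl rfl), mul_zero]
  · unfold cc
    refine finsum_eq_zero_of_forall_eq_zero fun v => ?_
    rw [ff_tame (hP i) (Or.inr (Or.inl rfl)), mul_zero]
  · obtain ⟨s, hs8, hs⟩ := c X Y N g₀ g₁ g₂
    calc ∑ i, |cc (P i) g₀ g₁ g₂|
        ≤ ∑ i, ∑ v ∈ s, (|P i (lam v g₀) (lam v g₁)| + |P i (lam v g₁) (lam v g₂)| +
            |P i (lam v g₂) (lam v g₀)|) := by
          refine Finset.sum_le_sum fun i _ => ?_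
          rw [cc_sum (hP i) hs (Finset.Subset.refl s)]
          refine (Finset.abs_sum_le_sum_abs _ _).trans (Finset.sum_le_sum fun v _ => ?_)
          rw [abs_mul, abs_eps, one_mul]
          unfold FF
          exact (abs_add_le _ _).trans (add_le_add (abs_add_le _ _) le_rfl)
      _ = ∑ v ∈ s, (∑ i, |P i (lam v g₀) (lam v g₁)| + ∑ i, |P i (lam v g₁) (lam v g₂)| +
            ∑ i, |P i (lam v g₂) (lam v g₀)|) := by
          rw [Finset.sum_comm]
          refine Finset.sum_congr rfl fun v _ => ?_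
          rw [Finset.sum_add_distrib, Finset.sum_add_distrib]
      _ ≤ ∑ v ∈ s, 3 * B := by
          refine Finset.sum_le_sum fun v _ => ?_
          have h1 := hB (lam v g₀) (lam v g₁)
          have h2 := hB (lam v g₁) (lam v g₂)
          have h3 := hB (lam v g₂) (lam v g₀)
          linarith
      _ = s.card * (3 * B) := by rw [Finset.sum_const, nsmul_eq_mul]
      _ ≤ 8 * (3 * B) := by
          apply mul_le_mul_of_nonneg_right _ (by linarith)
          exact_mod_cast hs8
      _ = 24 * B := by ring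

end Pool.Agent.N13.QC
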