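import Pool.Agent.N13.QC.Stm

/-!
Project QC (helper13), leaves K2 and K3 (helper700): equivariance and the values at the base point.
-/

set_option autoImplicit false

open scoped Classical

namespace Pool.Agent.N13.QC

namespace KbAux

variable {X Y : Type} {N : Y → X → Prop} {P : Option (X ⊕ Y) → Option (X ⊕ Y) → ℝ}

theorem ff1 (hP : Pot N P) (a c : Option (X ⊕ Y)) : FF P a a c = 0 := by
  unfold FF
  have h1 := hP.anti a a
  have h2 := hP.anti a c
  linarith

theorem ff2 (hP : Pot N P) (a c : Option (X ⊕ Y)) : FF P a c c = 0 := by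
  unfold FF
  have h1 := hP.anti c c
  have h2 := hP.anti a c
  linarith

theorem pnone (hP : Pot N P) (b : Option (X ⊕ Y)) : P b none = 0 := by
  rw [hP.anti, hP.none, neg_zero]

theorem dir_nil_nil {S : Type} : dir (RW.nil : RW S) RW.nil = none := rfl

theorem mul_nil_val {S : Type} (s : S) : (RW.mul s RW.nil).1 = [s] := rfl

theorem mul_ne {S : Type} (s : S) : RW.mul s RW.nil ≠ RW.nil := by
  intro h
  have h1 := congrArg Subtype.val h
  rw [mul_nil_val] at h1
  exact List.cons_ne_nil _ _ h1

theorem dir_nil_mul {S : Type} (s : S) : dir RW.nil (RW.mul s RW.nil) = some s := by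
  unfold dir
  rw [if_pos (by exact List.nil_prefix)]
  rfl

theorem dir_mul_nil {S : Type} (s : S) : dir (RW.mul s RW.nil) RW.nil = some s := by
  unfold dir
  rw [if_neg]
  · rfl
  · intro h
    exact List.cons_ne_nil _ _ (List.prefix_nil.1 h)

theorem dir_self {S : Type} (f : RW S) : dir f f = none := by
  unfold dir
  rw [if_pos (List.prefix_refl _)]
  exact List.getElem?_eq_none (le_refl _)

theorem ne_nil_val {S : Type} {p : RW S} (h : p ≠ RW.nil) : p.1 ≠ [] := fun h1 => h (Subtype.ext h1)

theorem dir_other {S : Type} (s : S) {p : RW S} (h1 : p ≠ RW.nil) (h2 : p ≠ RW.mul s RW.nil) :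
    dir p RW.nil = dir p (RW.mul s RW.nil) := by
  have h3 : ¬ p.1 <+: (RW.nil : RW S).1 := fun h => ne_nil_val h1 (List.prefix_nil.1 h)
  have h4 : ¬ p.1 <+: (RW.mul s RW.nil).1 := by
    intro h
    rw [mul_nil_val, List.prefix_cons_iff] at h
    rcases h with h | ⟨t, h, h'⟩
    · exact ne_nil_val h1 h
    · rw [List.prefix_nil.1 h'] at h
      exact h2 (Subtype.ext h)
  unfold dir
  rw [if_neg h3, if_neg h4]

theorem mem_nil (y : Y) : (Wl.base N y).mem RW.nil := by
  refine ⟨List.nil_prefix, ?_⟩
  intro x hx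
  exact absurd hx (by simp [RW.nil, Wl.base])

theorem mem_mul {x : X} {y : Y} (h : N y x) : (Wl.base N y).mem (RW.mul x RW.nil) := by
  refine ⟨List.nil_prefix, ?_⟩
  intro z hz
  have hz' : z ∈ [x].drop 0 := hz
  rw [List.drop_zero, List.mem_singleton] at hz'
  rw [hz']
  exact h

theorem tgt_none {m : RW (Wl N)} {v : Om N} (h : dir m v.1 = none) : tgt m v = Sum.inl v.2 := by
  unfold tgt
  rw [h]

theorem tgt_some {m : RW (Wl N)} {v : Om N} {D : Wl N} (h : dir m v.1 = some D) :
    tgt m v = Sum.inr D := by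
  unfold tgt
  rw [h]

theorem lab_inl (p f : RW X) : lab (N := N) p (Sum.inl f) = (dir p f).map Sum.inl := rfl

theorem lab_inr (p : RW X) (D : Wl N) : lab p (Sum.inr D) =
    if D.mem p then some (Sum.inr D.y) else (dir p D.g).map Sum.inl := rfl

theorem eps_mk (m : RW (Wl N)) (p : RW X) :
    eps ((m, p) : Om N) = (-1) ^ (m.1.length + p.1.length) := rfl

end KbAux

open KbAux

theorem t_K2 : S_K2 := by
  intro X Y N P σ hσ heps hlam g₀ g₁ g₂
  unfold cc
  let e : Om N ≃ Om N := ⟨σ, σ, hσ, hσ⟩
  rw [← finsum_comp_equiv e, ← finsum_neg_distrib]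
  apply finsum_congr
  intro v
  show eps (σ v) * FF P (lam (σ v) (σ g₀)) (lam (σ v) (σ g₁)) (lam (σ v) (σ g₂)) = _
  rw [heps, hlam, hlam, hlam, neg_mul]

theorem t_K3 (w3 : S_W3) : S_K3 := by
  intro X Y N P hP x y hxy
  set D0 : Wl N := Wl.base N y with hD0
  set X1 : RW X := RW.mul x RW.nil with hX1
  set M1 : RW (Wl N) := RW.mul D0 RW.nil with hM1
  have hX1ne : X1 ≠ RW.nil := mul_ne x
  have hM1ne : M1 ≠ RW.nil := mul_ne D0
  have hmem0 : D0.mem RW.nil := mem_nil y
  have hmem1 : D0.mem X1 := mem_mul hxy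
  have l0 : lab (RW.nil : RW X) (Sum.inr D0) = some (Sum.inr y) := by
    rw [lab_inr, if_pos hmem0]
    rfl
  have l1 : lab X1 (Sum.inr D0) = some (Sum.inr y) := by
    rw [lab_inr, if_pos hmem1]
    rfl
  have l00 : lab (N := N) (RW.nil : RW X) (Sum.inl RW.nil) = none := by
    rw [lab_inl, dir_nil_nil]
    rfl
  have l01 : lab (N := N) (RW.nil : RW X) (Sum.inl X1) = some (Sum.inl x) := by
    rw [lab_inl, hX1, dir_nil_mul]
    rfl
  have l10 : lab (N := N) X1 (Sum.inl RW.nil) = some (Sum.inl x) := by
    rw [lab_inl, hX1, dir_mul_nil]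
    rfl
  have l11 : lab (N := N) X1 (Sum.inl X1) = none := by
    rw [lab_inl, dir_self]
    rfl
  have hother : ∀ p : RW X, p ≠ RW.nil → p ≠ X1 →
      lab (N := N) p (Sum.inl RW.nil) = lab (N := N) p (Sum.inl X1) := by
    intro p h1 h2
    rw [lab_inl, lab_inl, dir_other x h1 h2]
  constructor
  · unfold cc
    rw [finsum_eq_sum_of_support_subset (s := {((RW.nil, RW.nil) : Om N), (RW.nil, X1)})]
    · rw [Finset.sum_pair (by
        intro h
        exact hX1ne (congrArg Prod.snd h).symm)]
      have t0 : tgt (RW.nil : RW (Wl N)) ((RW.nil, RW.nil) : Om N) = Sum.inl RW.nil :=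
        tgt_none dir_nil_nil
      have t1 : tgt (RW.nil : RW (Wl N)) ((RW.nil, X1) : Om N) = Sum.inl X1 :=
        tgt_none dir_nil_nil
      have t2 : tgt (RW.nil : RW (Wl N)) ((M1, X1) : Om N) = Sum.inr D0 :=
        tgt_some (dir_nil_mul D0)
      have e1 : eps ((RW.nil, RW.nil) : Om N) = 1 := by
        rw [eps_mk]
        simp [RW.nil]
      have e2 : eps ((RW.nil, X1) : Om N) = -1 := by
        rw [eps_mk, hX1, mul_nil_val]
        simp [RW.nil]
      have f1 : FF P (lam ((RW.nil, RW.nil) : Om N) (RW.nil, RW.nil))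
          (lam ((RW.nil, RW.nil) : Om N) (RW.nil, X1)) (lam ((RW.nil, RW.nil) : Om N) (M1, X1)) =
          P (some (Sum.inl x)) (some (Sum.inr y)) := by
        unfold lam
        show FF P (lab RW.nil (tgt RW.nil _)) (lab RW.nil (tgt RW.nil _))
          (lab RW.nil (tgt RW.nil _)) = _
        rw [t0, t1, t2, l00, l01, l0]
        unfold FF
        rw [hP.none, pnone hP]
        ring
      have f2 : FF P (lam ((RW.nil, X1) : Om N) (RW.nil, RW.nil))
          (lam ((RW.nil, X1) : Om N) (RW.nil, X1)) (lam ((RW.nil, X1) : Om N) (M1, X1)) =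
          - P (some (Sum.inl x)) (some (Sum.inr y)) := by
        unfold lam
        show FF P (lab X1 (tgt RW.nil _)) (lab X1 (tgt RW.nil _))
          (lab X1 (tgt RW.nil _)) = _
        rw [t0, t1, t2, l10, l11, l1]
        unfold FF
        rw [hP.none, pnone hP, hP.anti (some (Sum.inl x)) (some (Sum.inr y))]
        ring
      rw [e1, e2, f1, f2]
      ring
    · intro v hv
      rw [Finset.coe_pair, Set.mem_insert_iff, Set.mem_singleton_iff]
      by_contra hc
      rw [not_or] at hc
      apply hv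
      obtain ⟨m, p⟩ := v
      have key : lam ((m, p) : Om N) (RW.nil, RW.nil) = lam ((m, p) : Om N) (RW.nil, X1) := by
        unfold lam
        show lab p (tgt m _) = lab p (tgt m _)
        by_cases hm : m = RW.nil
        · rw [hm, tgt_none dir_nil_nil, tgt_none dir_nil_nil]
          apply hother
          · intro hp
            exact hc.1 (by rw [hm, hp])
          · intro hp
            exact hc.2 (by rw [hm, hp])
        · obtain ⟨D, hD⟩ := Option.ne_none_iff_exists'.1 (fun h =>
            hm ((w3 (Wl N) m RW.nil RW.nil).1.1 h))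
          rw [tgt_some hD, tgt_some hD]
      show eps _ * FF P _ _ _ = 0
      rw [key, ff1 hP, mul_zero]
  · unfold cc
    rw [finsum_eq_sum_of_support_subset (s := {((M1, RW.nil) : Om N), (M1, X1)})]
    · rw [Finset.sum_pair (by
        intro h
        exact hX1ne (congrArg Prod.snd h).symm)]
      have t0 : tgt M1 ((RW.nil, RW.nil) : Om N) = Sum.inr D0 :=
        tgt_some (dir_mul_nil D0)
      have t1 : tgt M1 ((M1, RW.nil) : Om N) = Sum.inl RW.nil :=
        tgt_none (dir_self M1)
      have t2 : tgt M1 ((M1, X1) : Om N) = Sum.inl X1 :=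
        tgt_none (dir_self M1)
      have e1 : eps ((M1, RW.nil) : Om N) = -1 := by
        rw [eps_mk, hM1, mul_nil_val]
        simp [RW.nil]
      have e2 : eps ((M1, X1) : Om N) = 1 := by
        rw [eps_mk, hX1, hM1, mul_nil_val, mul_nil_val]
        simp
      have f1 : FF P (lam ((M1, RW.nil) : Om N) (RW.nil, RW.nil))
          (lam ((M1, RW.nil) : Om N) (M1, RW.nil)) (lam ((M1, RW.nil) : Om N) (M1, X1)) =
          - P (some (Sum.inr y)) (some (Sum.inl x)) := by
        unfold lam
        show FF P (lab RW.nil (tgt M1 _)) (lab RW.nil (tgt M1 _))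
          (lab RW.nil (tgt M1 _)) = _
        rw [t0, t1, t2, l00, l01, l0]
        unfold FF
        rw [hP.none, pnone hP, hP.anti (some (Sum.inr y)) (some (Sum.inl x))]
        ring
      have f2 : FF P (lam ((M1, X1) : Om N) (RW.nil, RW.nil))
          (lam ((M1, X1) : Om N) (M1, RW.nil)) (lam ((M1, X1) : Om N) (M1, X1)) =
          P (some (Sum.inr y)) (some (Sum.inl x)) := by
        unfold lam
        show FF P (lab X1 (tgt M1 _)) (lab X1 (tgt M1 _))
          (lab X1 (tgt M1 _)) = _
        rw [t0, t1, t2, l10, l11, l1]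
        unfold FF
        rw [hP.none, pnone hP]
        ring
      rw [e1, e2, f1, f2]
      ring
    · intro v hv
      rw [Finset.coe_pair, Set.mem_insert_iff, Set.mem_singleton_iff]
      by_contra hc
      rw [not_or] at hc
      apply hv
      obtain ⟨m, p⟩ := v
      have key : lam ((m, p) : Om N) (M1, RW.nil) = lam ((m, p) : Om N) (M1, X1) := by
        unfold lam
        show lab p (tgt m _) = lab p (tgt m _)
        by_cases hm : m = M1
        · rw [hm, tgt_none (dir_self M1), tgt_none (dir_self M1)]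
          apply hother
          · intro hp
            exact hc.1 (by rw [hm, hp])
          · intro hp
            exact hc.2 (by rw [hm, hp])
        · obtain ⟨D, hD⟩ := Option.ne_none_iff_exists'.1 (fun h =>
            hm ((w3 (Wl N) m M1 M1).1.1 h))
          rw [tgt_some hD, tgt_some hD]
      show eps _ * FF P _ _ _ = 0
      rw [key, ff2 hP, mul_zero]

end Pool.Agent.N13.QC
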