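import Pool.Agent.N13.QC.Stm

/-!
Project QC (helper13), leaf P (helper803): potentials from functions on the edges of a bipartite graph.
-/

set_option autoImplicit false

open scoped Classical

namespace Pool.Agent.N13.QC

namespace Po

variable {X Y : Type} {N : Y → X → Prop}

theorem nb_symm {a b : X ⊕ Y} (h : Nb N a b) : Nb N b a := by
  rcases a with a | a <;> rcases b with b | b <;> simp only [Nb] at h ⊢ <;> exact h

theorem nb_irr (a : X ⊕ Y) : ¬ Nb N a a := by
  rcases a with a | a <;> simp [Nb]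

theorem nb_tri {u w z : X ⊕ Y} (h1 : Nb N u z) (h2 : Nb N w z) : ¬ Nb N u w := by
  rcases u with u | u <;> rcases w with w | w <;> rcases z with z | z <;> simp [Nb] at h1 h2 ⊢

/-- the extension to pairs with a common neighbour -/
noncomputable def ext (N : Y → X → Prop) (φ : X ⊕ Y → X ⊕ Y → ℝ) :
    Option (X ⊕ Y) → Option (X ⊕ Y) → ℝ
  | some a, some b => if Nb N a b then φ a b else
      if h : a ≠ b ∧ ∃ z, Nb N a z ∧ Nb N z b then φ a h.2.choose + φ h.2.choose b else 0
  | _, _ => 0

variable {φ : X ⊕ Y → X ⊕ Y → ℝ}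

theorem ext_some (a b : X ⊕ Y) : ext N φ (some a) (some b) = if Nb N a b then φ a b else
      if h : a ≠ b ∧ ∃ z, Nb N a z ∧ Nb N z b then φ a h.2.choose + φ h.2.choose b else 0 := rfl

theorem ext_nb {a b : X ⊕ Y} (h : Nb N a b) : ext N φ (some a) (some b) = φ a b := if_pos h

theorem ext_self (a : X ⊕ Y) : ext N φ (some a) (some a) = 0 := by
  rw [ext_some, if_neg (nb_irr a), dif_neg (fun h => h.1 rfl)]

theorem ext_cn (h2 : ∀ a b z z', Nb N a z → Nb N z b → Nb N a z' → Nb N z' b →
    φ a z + φ z b = φ a z' + φ z' b) {a b z : X ⊕ Y} (hab : a ≠ b) (haz : Nb N a z)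
    (hzb : Nb N z b) : ext N φ (some a) (some b) = φ a z + φ z b := by
  have h : a ≠ b ∧ ∃ z, Nb N a z ∧ Nb N z b := ⟨hab, z, haz, hzb⟩
  rw [ext_some, if_neg (nb_tri haz (nb_symm hzb)), dif_pos h]
  exact h2 a b _ z h.2.choose_spec.1 h.2.choose_spec.2 haz hzb

theorem ext_zero {a b : X ⊕ Y} (h : ¬ Nb N a b) (h' : ¬ (a ≠ b ∧ ∃ z, Nb N a z ∧ Nb N z b)) :
    ext N φ (some a) (some b) = 0 := by
  rw [ext_some, if_neg h, dif_neg h']

theorem ext_none (b : Option (X ⊕ Y)) : ext N φ none b = 0 := rfl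

theorem ext_none' (a : Option (X ⊕ Y)) : ext N φ a none = 0 := by
  cases a <;> rfl

theorem pot (h1 : ∀ a b, φ a b = - φ b a) (h2 : ∀ a b z z', Nb N a z → Nb N z b → Nb N a z' →
    Nb N z' b → φ a z + φ z b = φ a z' + φ z' b) : Pot N (ext N φ) where
  anti := by
    rintro (_ | a) (_ | b)
    · rw [ext_none, neg_zero]
    · rw [ext_none, ext_none', neg_zero]
    · rw [ext_none, ext_none', neg_zero]
    · by_cases h : Nb N a b
      · rw [ext_nb h, ext_nb (nb_symm h), h1]
      · by_cases h' : a ≠ b ∧ ∃ z, Nb N a z ∧ Nb N z b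
        · obtain ⟨hab, z, haz, hzb⟩ := h'
          rw [ext_cn h2 hab haz hzb, ext_cn h2 hab.symm (nb_symm hzb) (nb_symm haz), h1 a z, h1 z b]
          ring
        · have h'' : ¬ (b ≠ a ∧ ∃ z, Nb N b z ∧ Nb N z a) := by
            rintro ⟨hba, z, hbz, hza⟩
            exact h' ⟨hba.symm, z, nb_symm hza, nb_symm hbz⟩
          rw [ext_zero h h', ext_zero (fun h0 => h (nb_symm h0)) h'', neg_zero]
  none := ext_none
  add := by
    rintro z a b (rfl | ⟨u, rfl, hu⟩) hb
    · rw [ext_self, zero_add]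
    · rcases hb with rfl | ⟨w, rfl, hw⟩
      · rw [ext_self, add_zero]
      · rw [ext_nb hu, ext_nb (nb_symm hw)]
        by_cases huw : u = w
        · subst huw
          rw [ext_self, h1 u z]
          ring
        · exact ext_cn h2 huw hu (nb_symm hw)

end Po

/-- Part P. -/
theorem t_P : S_P := by
  intro X Y N ι _ φ B h1 h2 h3 hB
  refine ⟨fun i => Po.ext N (φ i), fun i => Po.pot (h1 i) (h2 i), fun i a b h => Po.ext_nb h, ?_⟩
  rintro (_ | a) (_ | b)
  · simp only [Po.ext_none, abs_zero, Finset.sum_const_zero]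
    linarith
  · simp only [Po.ext_none, abs_zero, Finset.sum_const_zero]
    linarith
  · simp only [Po.ext_none', abs_zero, Finset.sum_const_zero]
    linarith
  · by_cases h : Nb N a b
    · simp only [Po.ext_nb h]
      linarith [h3 a b h]
    · by_cases h' : a ≠ b ∧ ∃ z, Nb N a z ∧ Nb N z b
      · obtain ⟨hab, z, haz, hzb⟩ := h'
        have e : ∀ i, Po.ext N (φ i) (some a) (some b) = φ i a z + φ i z b :=
          fun i => Po.ext_cn (h2 i) hab haz hzb
        simp only [e]
        calc ∑ i, |φ i a z + φ i z b| ≤ ∑ i, (|φ i a z| + |φ i z b|) :=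
              Finset.sum_le_sum fun i _ => abs_add_le _ _
          _ = ∑ i, |φ i a z| + ∑ i, |φ i z b| := Finset.sum_add_distrib
          _ ≤ 2 * B := by linarith [h3 a z haz, h3 z b hzb]
      · simp only [Po.ext_zero h h', abs_zero, Finset.sum_const_zero]
        linarith

end Pool.Agent.N13.QC
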