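import Pool.Agent.N13.QC.Stm2

/-!
Project QC, leaf T (helper459): a bounded cocycle bounds the simplicial volume from below.
-/

set_option autoImplicit false

open scoped Classical

namespace Pool.Agent.N13.QC

open Pool.Agent.W907.SG (W cox chiW)
open Pool.Agent.Q134.SV

namespace T

/-- the bound of the value of a cochain at a chain -/
theorem abs_sum_le {S : Type} (c : S → ℝ) (K : ℝ) (hK : ∀ g, |c g| ≤ K) (z : S →₀ ℝ) :
    |z.sum fun g t => t * c g| ≤ K * z.sum fun _ t => |t| := by
  unfold Finsupp.sum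
  rw [Finset.mul_sum]
  refine (Finset.abs_sum_le_sum_abs _ _).trans (Finset.sum_le_sum fun g _ => ?_)
  rw [abs_mul, mul_comm K]
  exact mul_le_mul_of_nonneg_left (hK g) (abs_nonneg _)

/-- the number of the cosets `H q` -/
theorem card_quot {Γ : Type} [Group Γ] (H : Subgroup Γ) [Fintype (Quotient (QuotientGroup.rightRel H))] :
    (Fintype.card (Quotient (QuotientGroup.rightRel H)) : ℝ) = (H.index : ℝ) := by
  rw [← Nat.card_eq_fintype_card, Subgroup.index]
  exact congrArg _ (Nat.card_congr (QuotientGroup.quotientRightRelEquivQuotientLeftRel H))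

/-- the value of an equivariant cochain at the fundamental chain -/
theorem sum_fch {V : Type} [Fintype V] (G : SimpleGraph V) (n : ℕ) (a : (Fin n → V) → ℝ)
    (c : (Fin (n + 1) → W G) → ℝ) (hc : ∀ x g, c (fun i => gen G x * g i) = - c g)
    (H : Subgroup (W G)) (hH : H.index ≠ 0) :
    ((fch G n a H).sum fun g t => t * c g) =
      (1 / 2 : ℝ) ^ n * ((H.index : ℝ) * pair (gen G) a c) := by
  have hfi : H.FiniteIndex := ⟨hH⟩
  have hfin : Finite (Quotient (QuotientGroup.rightRel H)) :=
    Finite.of_equiv _ (QuotientGroup.quotientRightRelEquivQuotientLeftRel H).symm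
  have hft : Fintype (Quotient (QuotientGroup.rightRel H)) := Fintype.ofFinite _
  have h1 : ((fch G n a H).sum fun g t => t * c g) = Finsupp.linearCombination ℝ c (fch G n a H) :=
    rfl
  rw [h1, fch, finsum_eq_sum_of_fintype, map_smul, map_sum, smul_eq_mul]
  congr 1
  have h2 : ∀ q : Quotient (QuotientGroup.rightRel H),
      Finsupp.linearCombination ℝ c (∑ v : Fin n → V,
        Finsupp.single (fun i => q.out * Fin.partialProd (gen G ∘ v) i)
          (((par G q.out : ℤ) : ℝ) * a v)) = pair (gen G) a c := by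
    intro q
    rw [map_sum, pair]
    refine Finset.sum_congr rfl fun v _ => ?_
    rw [Finsupp.linearCombination_single, smul_eq_mul, equiv_of_gen G hc]
    have h3 : ((par G q.out : ℤ) : ℝ) * ((par G q.out : ℤ) : ℝ) = 1 := by
      rw [← Int.cast_mul, ← Units.val_mul, Int.units_mul_self]
      simp
    linear_combination (a v * c (Fin.partialProd (gen G ∘ v))) * h3
  rw [Finset.sum_congr rfl fun q _ => h2 q, Finset.sum_const, Finset.card_univ, nsmul_eq_mul,
    card_quot]

end T

/-- QC/T: a bounded cocycle bounds the simplicial volume from below -/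
theorem t_T : S_T := by
  intro V _ G n a c K hc hK H hH hε
  have hK0 : 0 ≤ K := (abs_nonneg _).trans (hK 1)
  obtain ⟨S, hS⟩ : ∃ S : Set ℝ, S = {r | ∃ z : (Fin (n + 1) → W G) →₀ ℝ,
    Homol G n H z (fch G n a H) ∧ r = z.sum fun _ t => |t|} := ⟨_, rfl⟩
  have hsv : svol G n a H = sInf S := by
    rw [hS]
    rfl
  have hne : S.Nonempty := by
    rw [hS]
    exact ⟨_, fch G n a H, fun _ _ _ => rfl, rfl⟩
  have hinv : ∀ h ∈ H, ∀ g : Fin (n + 1) → W G, c (fun i => h * g i) = c g := by
    intro h hh g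
    rw [equiv_of_gen G hc.gen, MonoidHom.mem_ker.1 (hε hh)]
    simp
  have h0 : ∀ r ∈ S, (H.index : ℝ) * |pair (gen G) a c| ≤ 2 ^ n * K * r := by
    intro r hr
    rw [hS] at hr
    obtain ⟨z, hz, rfl⟩ := hr
    have h1 := hz c hinv hc.coc
    rw [T.sum_fch G n a c hc.gen H hH] at h1
    have h2 := T.abs_sum_le c K hK z
    rw [h1, abs_mul, abs_mul, abs_of_pos (by positivity : (0 : ℝ) < (1 / 2) ^ n), Nat.abs_cast] at h2
    have h3 : (2 : ℝ) ^ n * (1 / 2) ^ n = 1 := by
      rw [← mul_pow]
      norm_num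
    calc (H.index : ℝ) * |pair (gen G) a c|
        = 2 ^ n * ((1 / 2) ^ n * ((H.index : ℝ) * |pair (gen G) a c|)) := by
          rw [← mul_assoc, h3, one_mul]
      _ ≤ 2 ^ n * (K * z.sum fun _ t => |t|) := mul_le_mul_of_nonneg_left h2 (by positivity)
      _ = 2 ^ n * K * z.sum fun _ t => |t| := by ring
  rw [hsv]
  rcases hK0.eq_or_lt with hK1 | hK1
  · obtain ⟨r, hr⟩ := hne
    have h1 := h0 r hr
    rw [← hK1, mul_zero, zero_mul] at h1 ⊢
    exact h1
  · have hpos : (0 : ℝ) < 2 ^ n * K := by positivity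
    have h1 : (H.index : ℝ) * |pair (gen G) a c| / (2 ^ n * K) ≤ sInf S := by
      refine le_csInf hne fun r hr => ?_
      rw [div_le_iff₀ hpos, mul_comm r]
      exact h0 r hr
    rw [div_le_iff₀ hpos] at h1
    rw [mul_comm (2 ^ n * K)]
    exact h1

end Pool.Agent.N13.QC
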