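import Pool.Agent.N13.QC.Stm2

/-!
Leaves QC/U and QC/B: products of cochains of degree two.
-/

set_option autoImplicit false

open scoped Classical

namespace Pool.Agent.N13.QC.Up

open Pool.Agent.Q134.SV Pool.Agent.N13.QC

/-- the product of a 2-cochain and a cochain -/
def cp {Γ : Type} {n : ℕ} (D : Γ → Γ → Γ → ℝ) (c : (Fin (n + 1) → Γ) → ℝ) :
    (Fin (n + 3) → Γ) → ℝ :=
  fun w => D (w 0) (w 1) (w 2) * c (fun i => w i.succ.succ)

lemma cp_cons {Γ : Type} {n : ℕ} (D : Γ → Γ → Γ → ℝ) (c : (Fin (n + 1) → Γ) → ℝ) (x y : Γ)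
    (w : Fin (n + 1) → Γ) : cp D c (Fin.cons x (Fin.cons y w)) = D x y (w 0) * c w := rfl

lemma cp_coc {Γ : Type} {n : ℕ} (D : Γ → Γ → Γ → ℝ)
    (hD : ∀ g₀ g₁ g₂ g₃, D g₁ g₂ g₃ - D g₀ g₂ g₃ + D g₀ g₁ g₃ - D g₀ g₁ g₂ = 0)
    (c : (Fin (n + 1) → Γ) → ℝ) (hc : ∀ g : Fin (n + 2) → Γ, cobd c g = 0)
    (w : Fin (n + 4) → Γ) : cobd (cp D c) w = 0 := by
  obtain ⟨x0, w1, rfl⟩ : ∃ x w', w = (Fin.cons x w' : Fin (n + 4) → Γ) :=
    ⟨w 0, Fin.tail w, (Fin.cons_self_tail w).symm⟩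
  obtain ⟨x1, w2, rfl⟩ : ∃ x w', w1 = (Fin.cons x w' : Fin (n + 3) → Γ) :=
    ⟨w1 0, Fin.tail w1, (Fin.cons_self_tail w1).symm⟩
  obtain ⟨x2, w3, rfl⟩ : ∃ x w', w2 = (Fin.cons x w' : Fin (n + 2) → Γ) :=
    ⟨w2 0, Fin.tail w2, (Fin.cons_self_tail w2).symm⟩
  rw [cobd_cons, cobd_cons, cobd_cons]
  have e0 : ∀ v : Fin n → Γ, cp D c (Fin.cons x0 (Fin.cons x1 (Fin.cons x2 v))) =
      D x0 x1 x2 * c (Fin.cons x2 v) := fun v => rfl
  have e1 : cobd (fun v => cp D c (Fin.cons x0 (Fin.cons x1 (Fin.cons x2 v)))) w3 =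
      D x0 x1 x2 * c w3 := by
    simp only [e0]
    have h1 := cobd_cons c x2 w3
    rw [hc] at h1
    have h2 : c w3 = cobd (fun v' => c (Fin.cons x2 v')) w3 := by linarith
    rw [h2]
    unfold cobd
    rw [Finset.mul_sum]
    refine Finset.sum_congr rfl fun i _ => ?_
    ring
  rw [e1, cp_cons, cp_cons, cp_cons]
  linear_combination c w3 * hD x0 x1 x2 (w3 0)

lemma cp_deg {Γ : Type} {n : ℕ} (D : Γ → Γ → Γ → ℝ) (hD : ∀ g h, D g g h = 0 ∧ D g h h = 0)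
    (c : (Fin (n + 1) → Γ) → ℝ)
    (hc : ∀ (w : Fin (n + 1) → Γ) (i : Fin n), w i.castSucc = w i.succ → c w = 0)
    (w : Fin (n + 3) → Γ) (i : Fin (n + 2)) (h : w i.castSucc = w i.succ) : cp D c w = 0 := by
  unfold cp
  revert h
  refine Fin.cases ?_ (fun j => ?_) i
  · intro h
    have : w 0 = w 1 := h
    rw [this, (hD _ _).1, zero_mul]
  · refine Fin.cases ?_ (fun k => ?_) j
    · intro h
      have : w 1 = w 2 := h
      rw [this, (hD _ _).2, zero_mul]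
    · intro h
      rw [hc (fun i => w i.succ.succ) k h, mul_zero]

lemma PC_succ {Γ : Type} (k : ℕ) (C : Fin (k + 1) → Γ → Γ → Γ → ℝ) :
    PC (k + 1) C = cp (n := 2 * k) (C 0) (PC k fun i => C i.succ) := rfl

lemma PC_mul {Γ : Type} [Mul Γ] (g : Γ) : ∀ (k : ℕ) (σ : Fin k → ℝ)
    (C : Fin k → Γ → Γ → Γ → ℝ),
    (∀ i g₀ g₁ g₂, C i (g * g₀) (g * g₁) (g * g₂) = σ i * C i g₀ g₁ g₂) →
    ∀ w : Fin (2 * k + 1) → Γ, PC k C (fun i => g * w i) = (∏ i, σ i) * PC k C w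
  | 0, σ, C, _, w => by simp [PC]
  | k + 1, σ, C, h, w => by
    have e : PC (k + 1) C (fun i => g * w i) = C 0 (g * w 0) (g * w 1) (g * w 2) *
      PC k (fun i => C i.succ) (fun i => g * w i.succ.succ) := rfl
    have e' : PC (k + 1) C w = C 0 (w 0) (w 1) (w 2) *
      PC k (fun i => C i.succ) (fun i => w i.succ.succ) := rfl
    rw [e, e', Fin.prod_univ_succ, h 0, PC_mul g k (fun i => σ i.succ) (fun i => C i.succ)
      (fun i => h i.succ) (fun i => w i.succ.succ)]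
    ring

lemma PC_coc {Γ : Type} : ∀ (k : ℕ) (C : Fin k → Γ → Γ → Γ → ℝ),
    (∀ i g₀ g₁ g₂ g₃, C i g₁ g₂ g₃ - C i g₀ g₂ g₃ + C i g₀ g₁ g₃ - C i g₀ g₁ g₂ = 0) →
    ∀ w : Fin (2 * k + 2) → Γ, cobd (PC k C) w = 0
  | 0, C, _, w => by
    unfold cobd
    rw [Fin.sum_univ_succ]
    simp [PC]
  | k + 1, C, h, w => by
    rw [PC_succ]
    exact cp_coc (C 0) (h 0) _ (PC_coc k (fun i => C i.succ) fun i => h i.succ) w

lemma PC_deg {Γ : Type} : ∀ (k : ℕ) (C : Fin k → Γ → Γ → Γ → ℝ),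
    (∀ i g h, C i g g h = 0 ∧ C i g h h = 0) →
    ∀ (w : Fin (2 * k + 1) → Γ) (i : Fin (2 * k)), w i.castSucc = w i.succ → PC k C w = 0
  | 0, _, _, _, i, _ => i.elim0
  | k + 1, C, h, w, i, hi => by
    rw [PC_succ]
    exact cp_deg (C 0) (h 0) _ (PC_deg k (fun i => C i.succ) fun i => h i.succ) w i hi

lemma PC_bound {Γ ι : Type} [Fintype ι] : ∀ (k : ℕ) (K : Fin k → ℝ)
    (C : Fin k → ι → Γ → Γ → Γ → ℝ), (∀ i g₀ g₁ g₂, ∑ j, |C i j g₀ g₁ g₂| ≤ K i) →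
    ∀ w : Fin (2 * k + 1) → Γ, ∑ e : Fin k → ι, |PC k (fun i => C i (e i)) w| ≤ ∏ i, K i
  | 0, K, C, _, w => by simp [PC]
  | k + 1, K, C, h, w => by
    have key : ∑ e : Fin (k + 1) → ι, |PC (k + 1) (fun i => C i (e i)) w| =
        (∑ j, |C 0 j (w 0) (w 1) (w 2)|) *
          ∑ e : Fin k → ι, |PC k (fun i => C i.succ (e i)) (fun i => w i.succ.succ)| := by
      rw [← (Fin.consEquiv (fun _ => ι)).sum_comp, Fintype.sum_prod_type, Finset.sum_mul_sum]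
      refine Finset.sum_congr rfl fun j _ => Finset.sum_congr rfl fun e _ => ?_
      rw [← abs_mul]
      rfl
    rw [key, Fin.prod_univ_succ]
    exact mul_le_mul (h 0 _ _ _)
      (PC_bound k (fun i => K i.succ) (fun i => C i.succ) (fun i => h i.succ) _)
      (Finset.sum_nonneg fun _ _ => abs_nonneg _)
      (le_trans (Finset.sum_nonneg fun _ _ => abs_nonneg _) (h 0 (w 0) (w 1) (w 2)))

end Pool.Agent.N13.QC.Up

namespace Pool.Agent.N13.QC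

theorem t_U : S_U := fun _ _ _ k σ C h1 h2 h3 =>
  ⟨fun s w => Up.PC_mul _ k (fun i => σ i s) C (fun i => h1 i s) w,
    Up.PC_coc k C h2, Up.PC_deg k C h3⟩

theorem t_B : S_B := fun _ _ _ k K C h => Up.PC_bound k K C h

end Pool.Agent.N13.QC
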