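import Pool.Agent.N13.QC.Stm2

/-!
QC/VE: the pairing of a product of cochains with a cycle (helper558 for helper13).
-/

set_option autoImplicit false

open scoped Classical

namespace Pool.Agent.N13.QC

open Pool.Agent.W907.SG (W cox chiW)
open Pool.Agent.Q134.SV

namespace VE

theorem PC_inv {V : Type} {G : SimpleGraph V} (s : V) : ∀ (k : ℕ)
    (C : Fin k → W G → W G → W G → ℝ),
    (∀ i g₀ g₁ g₂, C i (gen G s * g₀) (gen G s * g₁) (gen G s * g₂) = C i g₀ g₁ g₂) →
    ∀ w : Fin (2 * k + 1) → W G, PC k C (fun i => gen G s * w i) = PC k C w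
  | 0, _, _, _ => rfl
  | k + 1, C, hC, w => by
    show C 0 (gen G s * w 0) (gen G s * w 1) (gen G s * w 2) *
        PC k (fun i => C i.succ) (fun i => gen G s * w i.succ.succ) =
      C 0 (w 0) (w 1) (w 2) * PC k (fun i => C i.succ) fun i => w i.succ.succ
    rw [hC, PC_inv s k (fun i => C i.succ) (fun i => hC i.succ) (fun i => w i.succ.succ)]

theorem sum_cons2 {V : Type} [Fintype V] {m : ℕ} (F : (Fin (m + 2) → V) → ℝ) :
    ∑ v : Fin (m + 2) → V, F v = ∑ x, ∑ y, ∑ u : Fin m → V, F (Fin.cons x (Fin.cons y u)) := by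
  rw [sum_cons]
  exact Finset.sum_congr rfl fun x _ => sum_cons _

theorem pp0 {V : Type} {G : SimpleGraph V} {n : ℕ} (x y : V) (u : Fin n → V) :
    Fin.partialProd (gen G ∘ (Fin.cons x (Fin.cons y u) : Fin (n + 2) → V)) 0 = 1 :=
  Fin.partialProd_zero _

theorem pp1 {V : Type} {G : SimpleGraph V} {n : ℕ} (x y : V) (u : Fin n → V) :
    Fin.partialProd (gen G ∘ (Fin.cons x (Fin.cons y u) : Fin (n + 2) → V)) 1 = gen G x := by
  have h : (1 : Fin (n + 3)) = Fin.succ 0 := rfl
  rw [h, Fin.partialProd_succ', Fin.partialProd_zero, mul_one]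
  rfl

theorem pp3 {V : Type} {G : SimpleGraph V} {n : ℕ} (x y : V) (u : Fin n → V) (i : Fin (n + 1)) :
    Fin.partialProd (gen G ∘ (Fin.cons x (Fin.cons y u) : Fin (n + 2) → V)) i.succ.succ =
      gen G x * (gen G y * Fin.partialProd (gen G ∘ u) i) := by
  rw [Fin.partialProd_succ', Fin.partialProd_succ']
  rfl

theorem pp2 {V : Type} {G : SimpleGraph V} {n : ℕ} (x y : V) (u : Fin n → V) :
    Fin.partialProd (gen G ∘ (Fin.cons x (Fin.cons y u) : Fin (n + 2) → V)) 2 =
      gen G x * gen G y := by
  have h : (2 : Fin (n + 3)) = Fin.succ (Fin.succ 0) := rfl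
  rw [h, pp3, Fin.partialProd_zero, mul_one]

theorem PC_step {V : Type} {G : SimpleGraph V} {k : ℕ} (C : Fin (k + 1) → W G → W G → W G → ℝ)
    (x y : V) (u : Fin (2 * k) → V) :
    PC (k + 1) C (Fin.partialProd (gen G ∘ (Fin.cons x (Fin.cons y u) : Fin (2 * k + 2) → V))) =
      C 0 1 (gen G x) (gen G x * gen G y) * PC k (fun i => C i.succ)
        (fun i => gen G x * (gen G y * Fin.partialProd (gen G ∘ u) i)) := by
  have h : PC (k + 1) C
      (Fin.partialProd (gen G ∘ (Fin.cons x (Fin.cons y u) : Fin (2 * k + 2) → V))) =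
      C 0 (Fin.partialProd (gen G ∘ (Fin.cons x (Fin.cons y u) : Fin (2 * k + 2) → V)) 0)
        (Fin.partialProd (gen G ∘ (Fin.cons x (Fin.cons y u) : Fin (2 * k + 2) → V)) 1)
        (Fin.partialProd (gen G ∘ (Fin.cons x (Fin.cons y u) : Fin (2 * k + 2) → V)) 2) *
      PC k (fun i => C i.succ) (fun i =>
        Fin.partialProd (gen G ∘ (Fin.cons x (Fin.cons y u) : Fin (2 * k + 2) → V)) i.succ.succ) :=
    rfl
  rw [h, pp0, pp1, pp2]
  simp only [pp3]

theorem adj_tail {V : Type} {G : SimpleGraph V} {n : ℕ} {x y : V} {u : Fin n → V}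
    (h : ∀ i j, i ≠ j → G.Adj ((Fin.cons x (Fin.cons y u) : Fin (n + 2) → V) i)
      ((Fin.cons x (Fin.cons y u) : Fin (n + 2) → V) j)) :
    ∀ i j, i ≠ j → G.Adj (u i) (u j) := by
  intro i j hij
  exact h i.succ.succ j.succ.succ fun h' =>
    hij (Fin.succ_injective _ (Fin.succ_injective _ h'))

theorem not_inP {V : Type} {col : V → ℕ} {m j : ℕ} {s : V} (h : InP col m s) (hj : m ≠ j) :
    ¬ InP col j s := by
  unfold InP at *
  omega

end VE

/-- the pairing with a cycle -/
theorem t_V : S_V := by
  intro V _ G col k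
  induction k with
  | zero => intro m C ψ _ _ _ a _; exact Finset.sum_congr rfl fun v _ => rfl
  | succ k ih =>
    intro m C ψ h1 h2 h3 a ha
    have e1 : pair (gen G) a (PC (k + 1) C) = ∑ x, ∑ y, ∑ u : Fin (2 * k) → V,
        a (Fin.cons x (Fin.cons y u)) * PC (k + 1) C
          (Fin.partialProd (gen G ∘ (Fin.cons x (Fin.cons y u) : Fin (2 * k + 2) → V))) :=
      VE.sum_cons2 (m := 2 * k) (fun v => a v * PC (k + 1) C (Fin.partialProd (gen G ∘ v)))
    have e2 : ∑ v : Fin (2 * (k + 1)) → V, a v * PR (k + 1) ψ v = ∑ x, ∑ y,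
        ∑ u : Fin (2 * k) → V, a (Fin.cons x (Fin.cons y u)) *
          (ψ 0 x y * PR k (fun i => ψ i.succ) u) :=
      VE.sum_cons2 (m := 2 * k) (fun v => a v * PR (k + 1) ψ v)
    rw [e1, e2]
    refine Finset.sum_congr rfl fun x _ => Finset.sum_congr rfl fun y _ => ?_
    -- the induction hypothesis
    have e3 := ih (m + 1) (fun i => C i.succ) (fun i => ψ i.succ)
      (fun i s g₀ g₁ g₂ => by
        have h := h1 i.succ s g₀ g₁ g₂
        rw [Fin.val_succ, show m + ((i : ℕ) + 1) = m + 1 + (i : ℕ) by omega] at h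
        exact h)
      (fun i s t hst => by
        have h := h2 i.succ s t hst
        rw [Fin.val_succ, show m + ((i : ℕ) + 1) = m + 1 + (i : ℕ) by omega] at h
        exact h)
      (fun i s t hst => by
        refine h3 i.succ s t ?_
        rw [Fin.val_succ, show m + ((i : ℕ) + 1) = m + 1 + (i : ℕ) by omega]
        exact hst)
      (fun u => a (Fin.cons x (Fin.cons y u)))
      (fun u hu => VE.adj_tail (ha _ hu))
    have e4 : ∑ u : Fin (2 * k) → V, a (Fin.cons x (Fin.cons y u)) *
        (ψ 0 x y * PR k (fun i => ψ i.succ) u) = ψ 0 x y *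
          ∑ u : Fin (2 * k) → V, a (Fin.cons x (Fin.cons y u)) * PR k (fun i => ψ i.succ) u := by
      rw [Finset.mul_sum]
      exact Finset.sum_congr rfl fun u _ => by ring
    rw [e4, ← e3]
    unfold pair
    rw [Finset.mul_sum]
    refine Finset.sum_congr rfl fun u _ => ?_
    by_cases h0 : a (Fin.cons x (Fin.cons y u)) = 0
    · simp only [h0, zero_mul, mul_zero]
    · have hadj : G.Adj x y := ha _ h0 0 1 (by
        intro h
        exact (Fin.succ_ne_zero (0 : Fin (2 * k + 1))) h.symm)
      rw [VE.PC_step]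
      have e5 := h2 0 x y hadj
      have hm : m + ((0 : Fin (k + 1)) : ℕ) = m := by simp
      rw [hm] at e5
      by_cases hin : InP col m x ∧ InP col m y
      · rw [e5, if_pos hin]
        have hne : ∀ i : Fin k, m ≠ m + (i.succ : ℕ) := fun i => by
          rw [Fin.val_succ]; omega
        have hinv : ∀ s : V, InP col m s → ∀ w : Fin (2 * k + 1) → W G,
            PC k (fun i => C i.succ) (fun i => gen G s * w i) = PC k (fun i => C i.succ) w := by
          intro s hs w
          refine VE.PC_inv s k _ (fun i g₀ g₁ g₂ => ?_) w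
          have h := h1 i.succ s g₀ g₁ g₂
          rw [if_neg (VE.not_inP hs (hne i)), one_mul] at h
          exact h
        rw [hinv x hin.1 (fun i => gen G y * Fin.partialProd (gen G ∘ u) i),
          hinv y hin.2 (Fin.partialProd (gen G ∘ u))]
        ring
      · have h6 := h3 0 x y (by rw [hm]; exact hin)
        rw [e5, if_neg hin, h6]
        ring

/-- evaluation for elementary weights -/
theorem t_E : S_E := by
  intro V _ k
  induction k with
  | zero =>
    intro a _ e
    have : IsEmpty (Fin (2 * 0)) := inferInstanceAs (IsEmpty (Fin 0))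
    rw [Fintype.sum_subsingleton _ (jn 0 e)]
    show a (jn 0 e) * 1 = 2 ^ 0 * a (jn 0 e)
    ring
  | succ k ih =>
    intro a ha e
    obtain ⟨ψ, hψ⟩ : ∃ ψ : V × V → V → V → ℝ, ψ = fun p s t =>
      (if (s, t) = p then 1 else 0) - (if (t, s) = p then 1 else 0) := ⟨_, rfl⟩
    have e2 : ∑ v : Fin (2 * (k + 1)) → V, a v * PR (k + 1) (fun i s t =>
        (if (s, t) = e i then 1 else 0) - (if (t, s) = e i then 1 else 0)) v = ∑ x, ∑ y,
        ∑ u : Fin (2 * k) → V, a (Fin.cons x (Fin.cons y u)) *
          (((if (x, y) = e 0 then 1 else 0) - (if (y, x) = e 0 then 1 else 0)) *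
            PR k (fun i s t => (if (s, t) = e i.succ then 1 else 0) -
              (if (t, s) = e i.succ then 1 else 0)) u) :=
      VE.sum_cons2 (m := 2 * k) (fun v => a v * PR (k + 1) (fun i s t =>
        (if (s, t) = e i then 1 else 0) - (if (t, s) = e i then 1 else 0)) v)
    rw [e2]
    obtain ⟨A, hA⟩ : ∃ A : V → V → ℝ, A = fun x y =>
      a (Fin.cons x (Fin.cons y (jn k fun i => e i.succ))) := ⟨_, rfl⟩
    have hanti : ∀ x y, A y x = - A x y := by
      intro x y
      have h := ha (Fin.cons x (Fin.cons y (jn k fun i => e i.succ))) 0 1 (by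
        intro h
        exact (Fin.succ_ne_zero (0 : Fin (2 * k + 1))) h.symm)
      rw [hA]
      simp only
      rw [← h]
      congr 1
      exact (swap_cons_cons (n := 2 * k) x y _).symm
    have e3 : ∀ x y : V, ∑ u : Fin (2 * k) → V, a (Fin.cons x (Fin.cons y u)) *
          (((if (x, y) = e 0 then 1 else 0) - (if (y, x) = e 0 then 1 else 0)) *
            PR k (fun i s t => (if (s, t) = e i.succ then 1 else 0) -
              (if (t, s) = e i.succ then 1 else 0)) u) =
        ((if (x, y) = e 0 then 1 else 0) - (if (y, x) = e 0 then 1 else 0)) *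
          (2 ^ k * A x y) := by
      intro x y
      have h := ih (fun u => a (Fin.cons x (Fin.cons y u))) (fun u i j hij => by
        have h := ha (Fin.cons x (Fin.cons y u)) i.succ.succ j.succ.succ (by
          intro h
          exact hij (Fin.succ_injective _ (Fin.succ_injective _ h)))
        rw [← h]
        exact congrArg a (lnk_swap (n := 2 * k) x y u i j)) (fun i => e i.succ)
      rw [hA]
      simp only
      rw [← h, Finset.mul_sum]
      exact Finset.sum_congr rfl fun u _ => by ring
    rw [Finset.sum_congr rfl fun x _ => Finset.sum_congr rfl fun y _ => e3 x y]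
    have e4 : ∑ x, ∑ y, ((if (x, y) = e 0 then (1 : ℝ) else 0) -
        (if (y, x) = e 0 then 1 else 0)) * (2 ^ k * A x y) =
        2 ^ k * A (e 0).1 (e 0).2 - 2 ^ k * A (e 0).2 (e 0).1 := by
      simp only [sub_mul, Finset.sum_sub_distrib]
      congr 1
      · rw [Finset.sum_eq_single (e 0).1, Finset.sum_eq_single (e 0).2]
        · rw [if_pos rfl, one_mul]
        · intro y _ hy
          rw [if_neg fun h => hy (congrArg Prod.snd h), zero_mul]
        · intro h
          exact absurd (Finset.mem_univ _) h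
        · intro x _ hx
          refine Finset.sum_eq_zero fun y _ => ?_
          rw [if_neg fun h => hx (congrArg Prod.fst h), zero_mul]
        · intro h
          exact absurd (Finset.mem_univ _) h
      · rw [Finset.sum_eq_single (e 0).2, Finset.sum_eq_single (e 0).1]
        · rw [if_pos rfl, one_mul]
        · intro y _ hy
          rw [if_neg fun h => hy (congrArg Prod.fst h), zero_mul]
        · intro h
          exact absurd (Finset.mem_univ _) h
        · intro x _ hx
          refine Finset.sum_eq_zero fun y _ => ?_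
          rw [if_neg fun h => hx (congrArg Prod.snd h), zero_mul]
        · intro h
          exact absurd (Finset.mem_univ _) h
    rw [e4, hanti (e 0).1 (e 0).2]
    have e5 : A (e 0).1 (e 0).2 = a (jn (k + 1) e) := by rw [hA]; rfl
    rw [e5]
    ring

end Pool.Agent.N13.QC
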