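import Pool.Agent.N13.QC.Stm

/-!
Project QC (helper13), part A1 (helper27): the action of the letters on the walls.
-/

set_option autoImplicit false

open scoped Classical

namespace Pool.Agent.N13.QC

namespace A1

variable {X Y : Type} {N : Y → X → Prop}

theorem lmul_cons {S : Type} (x t : S) (l : List S) :
    lmul x (t :: l) = if x = t then l else x :: t :: l := rfl

theorem lab_inr (p : RW X) (D : Wl N) : lab p (Sum.inr D) =
    if D.mem p then some (Sum.inr D.y) else (dir p D.g).map Sum.inl := rfl

theorem ext' {D D' : Wl N} (h1 : D.y = D'.y) (h2 : D.g = D'.g) : D = D' := by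
  cases D
  cases D'
  cases h1
  cases h2
  rfl

theorem act_pos {x : X} {D : Wl N} (h : D.g.1 = [] ∧ N D.y x) : Wl.act x D = D := by
  unfold Wl.act
  rw [dif_pos h]

theorem act_g {x : X} {D : Wl N} (h : ¬ (D.g.1 = [] ∧ N D.y x)) :
    (Wl.act x D).g = RW.mul x D.g := by
  unfold Wl.act
  rw [dif_neg h]

theorem act_y (x : X) (D : Wl N) : (Wl.act x D).y = D.y := by
  unfold Wl.act
  split_ifs
  · rfl
  · rfl

theorem act_act (w1 : S_W1) (x : X) (D : Wl N) : Wl.act x (Wl.act x D) = D := by
  by_cases h : D.g.1 = [] ∧ N D.y x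
  · rw [act_pos h, act_pos h]
  · have h1 : ¬ ((Wl.act x D).g.1 = [] ∧ N (Wl.act x D).y x) := by
      rw [act_g h, act_y]
      rintro ⟨h2, h3⟩
      have h4 := D.last x
      change lmul x D.g.1 = [] at h2
      cases hl : D.g.1 with
      | nil => exact h ⟨hl, h3⟩
      | cons t l =>
        rw [hl] at h2 h4
        rw [lmul_cons] at h2
        split_ifs at h2 with hxt
        rw [h2, ← hxt] at h4
        exact h4 (by simp) h3
    apply ext'
    · rw [act_y, act_y]
    · rw [act_g h1, act_g h, (w1 X x D.g).1]

theorem mem_iff (D : Wl N) (p : RW X) :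
    D.mem p ↔ ∃ u, p.1 = D.g.1 ++ u ∧ ∀ z ∈ u, N D.y z := by
  unfold Wl.mem
  constructor
  · rintro ⟨⟨u, hu⟩, h⟩
    rw [← hu, List.drop_left] at h
    exact ⟨u, hu.symm, h⟩
  · rintro ⟨u, hu, h⟩
    rw [hu, List.drop_left]
    exact ⟨⟨u, rfl⟩, h⟩

theorem mem_act (x : X) (D : Wl N) (p : RW X) (hp : D.mem p) :
    (Wl.act x D).mem (RW.mul x p) := by
  rw [mem_iff] at hp ⊢
  obtain ⟨u, hu, h⟩ := hp
  by_cases hD : D.g.1 = [] ∧ N D.y x
  · rw [act_pos hD, hD.1]
    refine ⟨lmul x p.1, rfl, ?_⟩
    rw [hu, hD.1, List.nil_append]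
    intro z hz
    cases u with
    | nil =>
      change z ∈ [x] at hz
      rw [List.mem_singleton] at hz
      rw [hz]
      exact hD.2
    | cons t u =>
      rw [lmul_cons] at hz
      split_ifs at hz with hxt
      · exact h z (List.mem_cons_of_mem _ hz)
      · rcases List.mem_cons.1 hz with h1 | h1
        · rw [h1]
          exact hD.2
        · exact h z h1
  · refine ⟨u, ?_, ?_⟩
    · rw [act_g hD]
      change lmul x p.1 = lmul x D.g.1 ++ u
      rw [hu]
      cases hl : D.g.1 with
      | nil =>
        rw [List.nil_append]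
        cases u with
        | nil => rfl
        | cons t u =>
          rw [lmul_cons]
          have hxt : x ≠ t := by
            intro hxt
            apply hD
            refine ⟨hl, ?_⟩
            rw [hxt]
            exact h t (List.mem_cons_self ..)
          rw [if_neg hxt]
          rfl
      | cons t l =>
        rw [List.cons_append, lmul_cons, lmul_cons]
        split_ifs
        · rfl
        · rfl
    · rw [act_y]
      exact h

theorem mem_act_iff (w1 : S_W1) (x : X) (D : Wl N) (p : RW X) :
    (Wl.act x D).mem (RW.mul x p) ↔ D.mem p := by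
  constructor
  · intro h
    have h1 := mem_act x _ _ h
    rwa [act_act w1, (w1 X x p).1] at h1
  · exact mem_act x D p

theorem dir_nil (w : RW X) (hw : w.1 ≠ []) (f : RW X) (hf : f.1 = []) :
    dir w f = w.1.getLast? := by
  unfold dir
  rw [if_neg]
  rw [hf, List.prefix_nil]
  exact hw

end A1

theorem t_A1 (w1 : S_W1) (w2 : S_W2) : S_A1 := by
  intro X Y N x D p
  refine ⟨A1.act_act w1 x D, A1.act_y x D, A1.mem_act_iff w1 x D p, ?_⟩
  rw [A1.lab_inr, A1.lab_inr]
  by_cases hm : D.mem p
  · rw [if_pos ((A1.mem_act_iff w1 x D p).2 hm), if_pos hm, A1.act_y]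
  · rw [if_neg (fun h => hm ((A1.mem_act_iff w1 x D p).1 h)), if_neg hm]
    by_cases hD : D.g.1 = [] ∧ N D.y x
    · rw [A1.act_pos hD]
      have hp : p.1 ≠ [] := by
        intro hp
        apply hm
        rw [A1.mem_iff]
        exact ⟨[], by rw [hp, hD.1]; rfl, by simp⟩
      have hq : (RW.mul x p).1 ≠ [] := by
        intro hq
        change lmul x p.1 = [] at hq
        apply hm
        rw [A1.mem_iff]
        cases hl : p.1 with
        | nil => exact absurd hl hp
        | cons t l =>
          rw [hl] at hq
          rw [A1.lmul_cons] at hq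
          split_ifs at hq with hxt
          refine ⟨[t], ?_, ?_⟩
          · rw [hq, hD.1]
            rfl
          · intro z hz
            rw [List.mem_singleton] at hz
            rw [hz, ← hxt]
            exact hD.2
      rw [A1.dir_nil _ hq _ hD.1, A1.dir_nil _ hp _ hD.1]
      congr 1
      change (lmul x p.1).getLast? = p.1.getLast?
      change lmul x p.1 ≠ [] at hq
      cases hl : p.1 with
      | nil => exact absurd hl hp
      | cons t l =>
        rw [hl] at hq
        rw [A1.lmul_cons] at hq ⊢
        split_ifs at hq ⊢ with hxt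
        · cases l with
          | nil => exact absurd rfl hq
          | cons u l => simp
        · simp
    · rw [A1.act_g hD, w2]

end Pool.Agent.N13.QC
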