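import Pool.Agent.N13.QC.Stm

/-!
Project QC, leaf A2 and A3: walls (convexity and tree property) (helper340).
-/

set_option autoImplicit false

open scoped Classical

namespace Pool.Agent.N13.QC

namespace Wc

variable {X Y : Type} {N : Y → X → Prop}

theorem mem_iff (D : Wl N) (p : RW X) :
    D.mem p ↔ ∃ u : List X, p.1 = D.g.1 ++ u ∧ ∀ x ∈ u, N D.y x := by
  constructor
  · rintro ⟨⟨u, hu⟩, h⟩
    refine ⟨u, hu.symm, ?_⟩
    rw [← hu, List.drop_left] at h
    exact h
  · rintro ⟨u, hu, h⟩
    refine ⟨⟨u, hu.symm⟩, ?_⟩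
    rw [hu, List.drop_left]
    exact h

/-- a point outside of a subtree sees the base and the points of the subtree in the same
direction -/
theorem dir_eq (D : Wl N) (p q : RW X) (hp : D.mem p) (hq : ¬ D.mem q) :
    dir q D.g = dir q p := by
  obtain ⟨u, hu, hN⟩ := (mem_iff D p).1 hp
  by_cases h : q.1 <+: D.g.1
  · obtain ⟨s, hs⟩ := h
    have hs0 : s ≠ [] := by
      rintro rfl
      refine hq ((mem_iff D q).2 ⟨[], ?_, by simp⟩)
      rw [← hs, List.append_nil, List.append_nil]
    have h1 : q.1 <+: D.g.1 := ⟨s, hs⟩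
    have h2 : q.1 <+: p.1 := ⟨s ++ u, by rw [hu, ← hs, List.append_assoc]⟩
    unfold dir
    rw [if_pos h1, if_pos h2, hu, ← hs]
    obtain ⟨a, s', rfl⟩ := List.exists_cons_of_ne_nil hs0
    simp
  · have h2 : ¬ q.1 <+: p.1 := by
      intro h3
      have h4 : D.g.1 <+: p.1 := ⟨u, hu.symm⟩
      rcases List.prefix_or_prefix_of_prefix h3 h4 with h5 | h5
      · exact h h5
      · obtain ⟨w, hw⟩ := h5
        obtain ⟨z, hz⟩ := h3
        have h6 : u = w ++ z := by
          rw [hu, ← hw, List.append_assoc] at hz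
          exact (List.append_cancel_left hz).symm
        refine hq ((mem_iff D q).2 ⟨w, hw.symm, fun x hx => hN x ?_⟩)
        rw [h6]
        exact List.mem_append_left z hx
    unfold dir
    rw [if_neg h, if_neg h2]

end Wc

open Wc

theorem t_A2 : S_A2 := by
  intro X Y N D p q hp hq hpq
  obtain ⟨u, hu, hu'⟩ := (mem_iff D p).1 hp
  obtain ⟨v, hv, hv'⟩ := (mem_iff D q).1 hq
  unfold dir
  split_ifs with h
  · obtain ⟨r, hr⟩ := h
    have hr0 : r ≠ [] := by
      rintro rfl
      rw [List.append_nil] at hr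
      exact hpq (Subtype.ext hr)
    obtain ⟨a, s, rfl⟩ := List.exists_cons_of_ne_nil hr0
    refine ⟨a, by rw [← hr]; simp, hv' a ?_⟩
    have h1 : v = u ++ a :: s := by
      rw [hu, hv, List.append_assoc] at hr
      exact (List.append_cancel_left hr).symm
    rw [h1]
    simp
  · have hu0 : u ≠ [] := by
      rintro rfl
      refine h ⟨v, ?_⟩
      rw [hu, hv, List.append_nil]
    refine ⟨u.getLast hu0, ?_, hu' _ (List.getLast_mem hu0)⟩
    rw [hu, List.getLast?_append_of_ne_nil _ hu0, List.getLast?_eq_getLast_of_ne_nil hu0]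

theorem t_A3 (w3 : S_W3) (_a2 : S_A2) : S_A3 := by
  intro X Y N D p q hpq hD
  by_cases hp : D.mem p
  · have hq : ¬ D.mem q := fun hq => hD ⟨hp, hq⟩
    right
    show (if D.mem q then _ else _) = _
    rw [if_neg hq, dir_eq D p q hp hq]
  · by_cases hq : D.mem q
    · left
      show (if D.mem p then _ else _) = _
      rw [if_neg hp, dir_eq D q p hq hp]
    · rcases (w3 X p q D.g).2 hpq with h | h
      · left
        show (if D.mem p then _ else _) = _
        rw [if_neg hp, h]
      · right
        show (if D.mem q then _ else _) = _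
        rw [if_neg hq, h]

end Pool.Agent.N13.QC
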