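import Pool.Agent.N13.QC.Stm

/-!
# QC/W: words
-/

set_option autoImplicit false

open scoped Classical

namespace Pool.Agent.N13.QC

namespace Wd

variable {S T : Type}

/-- the direction, for lists -/
noncomputable def dL (p f : List S) : Option S := if p <+: f then f[p.length]? else p.getLast?

theorem dir_eq (p f : RW S) : dir p f = dL p.1 f.1 := rfl

/-- `l` does not begin with `s` -/
def nb (s : S) (l : List S) : Prop := ∀ t l', l = t :: l' → s ≠ t

theorem lmul_nb {s : S} {l : List S} (h : nb s l) : lmul s l = s :: l := by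
  cases l with
  | nil => rfl
  | cons t l =>
    change (if s = t then l else s :: t :: l) = _
    rw [if_neg (h t l rfl)]

theorem lmul_self (s : S) (l : List S) : lmul s (s :: l) = l := by
  change (if s = s then l else s :: s :: l) = _
  rw [if_pos rfl]

theorem nb_of_chain {s : S} {l : List S} (h : (s :: l).IsChain (· ≠ ·)) : nb s l := by
  rintro t l' rfl
  exact (List.isChain_cons_cons.1 h).1

theorem nb_or (s : S) (l : List S) : nb s l ∨ ∃ l', l = s :: l' := by
  cases l with
  | nil => left; rintro t l' h; simp at h
  | cons t l =>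
    by_cases h : s = t
    · right; exact ⟨l, by rw [h]⟩
    · left
      rintro t' l' h'
      simp only [List.cons.injEq] at h'
      rw [← h'.1]; exact h

theorem dL_cons (s : S) (p f : List S) : dL (s :: p) (s :: f) = dL p f := by
  unfold dL
  by_cases h : p <+: f
  · rw [if_pos h, if_pos ((List.prefix_cons_inj s).2 h)]
    simp
  · rw [if_neg h, if_neg (fun h' => h ((List.prefix_cons_inj s).1 h'))]
    cases p with
    | nil => exact absurd (List.nil_prefix) h
    | cons t p => rw [List.getLast?_cons_cons]

theorem not_prefix {s : S} {p f : List S} (hf : nb s f) : ¬ (s :: p) <+: f := by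
  rintro ⟨r, hr⟩
  exact hf s (p ++ r) (by rw [← hr]; rfl) rfl

theorem dL_swap {s : S} {p f : List S} (hp : nb s p) (hf : nb s f) :
    dL (s :: p) f = dL p (s :: f) := by
  unfold dL
  rw [if_neg (not_prefix hf)]
  cases p with
  | nil => rw [if_pos List.nil_prefix]; simp
  | cons t p =>
    have h1 : ¬ (t :: p) <+: (s :: f) := by
      intro h
      rw [List.cons_prefix_cons] at h
      exact hp t p rfl h.1.symm
    rw [if_neg h1, List.getLast?_cons_cons]

theorem dL_lmul (s : S) (p f : List S) (hp : p.IsChain (· ≠ ·)) (hf : f.IsChain (· ≠ ·)) :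
    dL (lmul s p) (lmul s f) = dL p f := by
  rcases nb_or s p with h1 | ⟨p', rfl⟩
  · rcases nb_or s f with h2 | ⟨f', rfl⟩
    · rw [lmul_nb h1, lmul_nb h2, dL_cons]
    · rw [lmul_nb h1, lmul_self, dL_swap h1 (nb_of_chain hf)]
  · rcases nb_or s f with h2 | ⟨f', rfl⟩
    · rw [lmul_nb h2, lmul_self, dL_swap (nb_of_chain hp) h2]
    · rw [lmul_self, lmul_self, dL_cons]

theorem dL_none (p f : List S) : dL p f = none ↔ p = f := by
  unfold dL
  by_cases h : p <+: f
  · rw [if_pos h, List.getElem?_eq_none_iff]
    constructor
    · intro h1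
      exact h.eq_of_length_le h1
    · rintro rfl
      exact le_rfl
  · rw [if_neg h]
    constructor
    · intro h1
      rw [List.getLast?_eq_none_iff] at h1
      rw [h1] at h
      exact absurd List.nil_prefix h
    · rintro rfl
      exact absurd (List.prefix_refl p) h

theorem prefix_antisymm {p q : List S} (h1 : p <+: q) (h2 : q <+: p) : p = q :=
  h1.eq_of_length_le h2.length_le

theorem dL_tree_aux {p q : List S} (f : List S) (hpq : p ≠ q) (h : p <+: q) :
    dL p f = dL p q ∨ dL q f = dL q p := by
  have h2 : ¬ q <+: p := fun h' => hpq (prefix_antisymm h h')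
  have hlen : p.length < q.length := by
    rcases lt_or_ge p.length q.length with h3 | h3
    · exact h3
    · exact absurd (h.eq_of_length_le h3) hpq
  by_cases h3 : q <+: f
  · left
    unfold dL
    rw [if_pos (h.trans h3), if_pos h]
    obtain ⟨r, rfl⟩ := h3
    rw [List.getElem?_append_left hlen]
  · right
    unfold dL
    rw [if_neg h3, if_neg h2]

theorem dL_tree {p q : List S} (f : List S) (hpq : p ≠ q) :
    dL p f = dL p q ∨ dL q f = dL q p := by
  by_cases h1 : p <+: q
  · exact dL_tree_aux f hpq h1
  · by_cases h2 : q <+: p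
    · exact (dL_tree_aux f hpq.symm h2).symm
    · by_cases h3 : p <+: f
      · by_cases h4 : q <+: f
        · rcases List.prefix_or_prefix_of_prefix h3 h4 with h | h
          · exact absurd h h1
          · exact absurd h h2
        · right
          unfold dL
          rw [if_neg h4, if_neg h2]
      · left
        unfold dL
        rw [if_neg h3, if_neg h1]

theorem map_lmul (σ : S → T) (hσ : Function.Injective σ) (s : S) (p : List S) :
    (lmul s p).map σ = lmul (σ s) (p.map σ) := by
  rcases nb_or s p with h1 | ⟨p', rfl⟩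
  · have h2 : nb (σ s) (p.map σ) := by
      intro t l' h
      cases p with
      | nil => simp at h
      | cons u p =>
        rw [List.map_cons, List.cons.injEq] at h
        rw [← h.1]
        exact fun e => h1 u p rfl (hσ e)
    rw [lmul_nb h1, lmul_nb h2, List.map_cons]
  · rw [lmul_self, List.map_cons, lmul_self]

theorem map_prefix (σ : S → T) (hσ : Function.Injective σ) (p f : List S) :
    p.map σ <+: f.map σ ↔ p <+: f := by
  constructor
  · intro h
    rw [List.prefix_iff_eq_take, List.length_map, ← List.map_take] at h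
    rw [List.prefix_iff_eq_take]
    exact (List.map_injective_iff.2 hσ) h
  · intro h
    exact h.map σ

theorem map_dL (σ : S → T) (hσ : Function.Injective σ) (p f : List S) :
    dL (p.map σ) (f.map σ) = (dL p f).map σ := by
  unfold dL
  by_cases h : p <+: f
  · rw [if_pos h, if_pos ((map_prefix σ hσ p f).2 h), List.length_map, List.getElem?_map]
  · rw [if_neg h, if_neg (fun h' => h ((map_prefix σ hσ p f).1 h')), List.getLast?_map]

end Wd

open Wd

theorem t_W1 : S_W1 := by
  intro S s w
  obtain ⟨l, hl⟩ := w
  rcases nb_or s l with h1 | ⟨p, rfl⟩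
  · refine ⟨Subtype.ext ?_, ?_⟩
    · change lmul s (lmul s l) = l
      rw [lmul_nb h1, lmul_self]
    · change (-1 : ℝ) ^ (lmul s l).length = - (-1 : ℝ) ^ l.length
      rw [lmul_nb h1, List.length_cons, pow_succ]
      ring
  · refine ⟨Subtype.ext ?_, ?_⟩
    · change lmul s (lmul s (s :: p)) = s :: p
      rw [lmul_self, lmul_nb (nb_of_chain hl)]
    · change (-1 : ℝ) ^ (lmul s (s :: p)).length = - (-1 : ℝ) ^ (s :: p).length
      rw [lmul_self, List.length_cons, pow_succ]
      ring

theorem t_W2 : S_W2 := fun _ s p f => dL_lmul s p.1 f.1 p.2 f.2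

theorem t_W3 : S_W3 := fun _ p q f =>
  ⟨(dL_none p.1 f.1).trans Subtype.ext_iff.symm, fun h => dL_tree f.1 fun e => h (Subtype.ext e)⟩

theorem t_W4 : S_W4 := fun _ _ σ hσ s p f =>
  ⟨Subtype.ext (map_lmul σ hσ s p.1), map_dL σ hσ p.1 f.1⟩

end Pool.Agent.N13.QC
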