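import Pool.Agent.N13.QC.Fin
import Pool.Agent.N13.QC.Wd
import Pool.Agent.N13.QC.Wa
import Pool.Agent.N13.QC.Wc
import Pool.Agent.N13.QC.Ct
import Pool.Agent.N13.QC.Ga
import Pool.Agent.N13.QC.Ka
import Pool.Agent.N13.QC.Kb
import Pool.Agent.N13.QC.Po
import Pool.Agent.N13.QC.Hm
import Pool.Agent.N13.QC.Up
import Pool.Agent.N13.QC.Ve
import Pool.Agent.N13.QC.Tr

/-!
Project QC, final assembly.
-/

set_option autoImplicit false

open scoped Classical

namespace Pool.Agent.N13.QC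

open Pool.Agent.W907.SG (W cox chiW)
open Pool.Agent.Q134.SV

theorem all_H : S_H :=
  t_H (t_G t_W1 t_W2 t_W4 (t_A1 t_W1 t_W2)) (t_K1 (t_C t_W3 t_A2 (t_A3 t_W3 t_A2))) t_K2
    (t_K3 t_W3) t_P

section

variable {k : ℕ} {V : Type} [Fintype V] {G : SimpleGraph V} {col : V → ℕ} (h : PCol k G col)
  {a : (Fin (2 * k) → V) → ℝ} (ha : IsCyc (2 * k) G a) (H : Subgroup (W G)) (hi : H.index ≠ 0)
  (hε : H ≤ (par G).ker)

include h ha hi hε

theorem srt_svol : (H.index : ℝ) * srt col k a ≤ 48 ^ k * svol G (2 * k) a H :=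
  (mul_le_mul_of_nonneg_left (srt_le h ha) (Nat.cast_nonneg _)).trans
    (lower all_H t_U t_B t_V t_E t_T k V V G G id (fun _ _ h => Or.inr h) col h.adj h.lt a ha H hi
      hε)

theorem l1_svol : (H.index : ℝ) * ∑ v, |a v| ≤
    (2 * k).factorial * 48 ^ k * svol G (2 * k) a H := by
  calc (H.index : ℝ) * ∑ v, |a v| ≤ (H.index : ℝ) * ((2 * k).factorial * srt col k a) :=
        mul_le_mul_of_nonneg_left (l1_le h ha) (Nat.cast_nonneg _)
    _ = (2 * k).factorial * ((H.index : ℝ) * srt col k a) := by ring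
    _ ≤ (2 * k).factorial * (48 ^ k * svol G (2 * k) a H) :=
        mul_le_mul_of_nonneg_left (srt_svol h ha H hi hε) (by positivity)
    _ = _ := by ring

variable (h1 : ∀ v : Fin (2 * k) → V, (∀ i j, i ≠ j → G.Adj (v i) (v j)) → |a v| = 1)

include h1

theorem cubes_svol : (H.index : ℝ) * ncl G (2 * k) ≤ 48 ^ k * svol G (2 * k) a H :=
  (mul_le_mul_of_nonneg_left (t_S V G col k h.adj h.lt a h1) (Nat.cast_nonneg _)).trans
    (srt_svol h ha H hi hε)

variable (hp : ∀ T : Finset V, G.IsClique (T : Set V) →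
  ∃ T' : Finset V, T ⊆ T' ∧ G.IsNClique (2 * k) T')

include hp

theorem chi_svol : (H.index : ℝ) * |(chiW G : ℝ)| ≤ 108 ^ k * svol G (2 * k) a H := by
  have h2 := cubes_svol h ha H hi hε h1
  have h3 : (108 : ℝ) ^ k = (3 / 2) ^ (2 * k) * 48 ^ k := by
    rw [pow_mul, ← mul_pow]
    norm_num
  calc (H.index : ℝ) * |(chiW G : ℝ)| ≤ (H.index : ℝ) * ((3 / 2) ^ (2 * k) *
        ncl G (2 * k)) :=
        mul_le_mul_of_nonneg_left (t_X V G (2 * k) hp) (Nat.cast_nonneg _)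
    _ = (3 / 2) ^ (2 * k) * ((H.index : ℝ) *
        ncl G (2 * k)) := by ring
    _ ≤ (3 / 2) ^ (2 * k) * (48 ^ k * svol G (2 * k) a H) :=
        mul_le_mul_of_nonneg_left h2 (by positivity)
    _ = _ := by rw [h3]; ring

theorem betti_svol [LinearOrder V] (m : ℕ) : (∑ i ∈ Finset.range m,
    (Module.finrank ℝ (Pool.Agent.Y132.SI.HInv G H i) : ℝ)) ≤ 192 ^ k * svol G (2 * k) a H := by
  have h2 := cubes_svol h ha H hi hε h1
  have h3 : (192 : ℝ) ^ k = 2 ^ (2 * k) * 48 ^ k := by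
    rw [pow_mul, ← mul_pow]
    norm_num
  calc (∑ i ∈ Finset.range m, (Module.finrank ℝ (Pool.Agent.Y132.SI.HInv G H i) : ℝ)) ≤
        ∑ i ∈ Finset.range m, (H.index : ℝ) *
          ncl G i :=
        Finset.sum_le_sum fun i _ => finrank_HInv_le G H hi i
    _ = (H.index : ℝ) * ∑ i ∈ Finset.range m,
          (ncl G i : ℝ) := by
        rw [Finset.mul_sum]
    _ ≤ (H.index : ℝ) * (2 ^ (2 * k) *
        ncl G (2 * k)) :=
        mul_le_mul_of_nonneg_left (card_cliques hp m) (Nat.cast_nonneg _)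
    _ = 2 ^ (2 * k) * ((H.index : ℝ) *
        ncl G (2 * k)) := by ring
    _ ≤ 2 ^ (2 * k) * (48 ^ k * svol G (2 * k) a H) :=
        mul_le_mul_of_nonneg_left h2 (by positivity)
    _ = _ := by rw [h3]; ring

end

end Pool.Agent.N13.QC
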