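import Pool.Agent.N13.QC.Stm2
import Pool.Agent.N13.SV.Bary

/-!
Assembly of project QC.
-/

set_option autoImplicit false

open scoped Classical

namespace Pool.Agent.N13.QC

open Pool.Agent.W907.SG (W cox chiW)
open Pool.Agent.Q134.SV

section lin

variable {V : Type} [Fintype V] {G : SimpleGraph V}

/-- products of cochains are good -/
theorem good_PC (hU : S_U) {k : ℕ} (col : V → ℕ) (hcol : ∀ v, col v < 2 * k)
    (C : Fin k → W G → W G → W G → ℝ)
    (h1 : ∀ i s g₀ g₁ g₂, C i (gen G s * g₀) (gen G s * g₁) (gen G s * g₂) =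
      (if InP col i s then -1 else 1) * C i g₀ g₁ g₂)
    (h2 : ∀ i g₀ g₁ g₂ g₃, C i g₁ g₂ g₃ - C i g₀ g₂ g₃ + C i g₀ g₁ g₃ - C i g₀ g₁ g₂ = 0)
    (h3 : ∀ i g h, C i g g h = 0 ∧ C i g h h = 0) (K : ℝ) (hK : ∀ w, |PC k C w| ≤ K) :
    Good G (2 * k) (PC k C) := by
  obtain ⟨u1, u2, u3⟩ := hU V G k (fun i s => if InP col i s then -1 else 1) C h1 h2 h3
  refine ⟨fun s w => ?_, u2, ⟨K, hK⟩, u3⟩
  rw [u1 s w]
  have hs := hcol s
  have hi : col s / 2 < k := by omega
  rw [Finset.prod_eq_single (⟨col s / 2, hi⟩ : Fin k)]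
  · rw [if_pos]
    · ring
    · unfold InP
      show col s = 2 * (col s / 2) ∨ col s = 2 * (col s / 2) + 1
      omega
  · intro j _ hj
    rw [if_neg]
    intro h
    apply hj
    apply Fin.ext
    unfold InP at h
    show (j : ℕ) = col s / 2
    omega
  · intro h
    exact absurd (Finset.mem_univ _) h

/-- linear combinations of good cochains -/
theorem good_sum {n : ℕ} {κ : Type} [Fintype κ] (Φ : κ → ℝ) (c : κ → (Fin (n + 1) → W G) → ℝ)
    (hc : ∀ e, Φ e ≠ 0 → Good G n (c e)) (K : ℝ) (hK : ∀ w, |∑ e, Φ e * c e w| ≤ K) :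
    Good G n (fun w => ∑ e, Φ e * c e w) := by
  refine ⟨fun s w => ?_, fun w => ?_, ⟨K, hK⟩, fun w i hi => ?_⟩
  · rw [← Finset.sum_neg_distrib]
    refine Finset.sum_congr rfl fun e _ => ?_
    by_cases h : Φ e = 0
    · rw [h]; ring
    · rw [(hc e h).gen]; ring
  · unfold cobd
    simp only [Finset.mul_sum]
    rw [Finset.sum_comm]
    refine Finset.sum_eq_zero fun e _ => ?_
    by_cases h : Φ e = 0
    · simp [h]
    · have h1 := (hc e h).coc w
      unfold cobd at h1
      have h2 : ∑ i : Fin (n + 2), (-1 : ℝ) ^ (i : ℕ) * (Φ e * c e (w ∘ i.succAbove)) =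
          Φ e * ∑ i : Fin (n + 2), (-1 : ℝ) ^ (i : ℕ) * c e (w ∘ i.succAbove) := by
        rw [Finset.mul_sum]
        exact Finset.sum_congr rfl fun i _ => by ring
      rw [h2, h1, mul_zero]
  · refine Finset.sum_eq_zero fun e _ => ?_
    by_cases h : Φ e = 0
    · rw [h, zero_mul]
    · rw [(hc e h).nrm w i hi, mul_zero]

theorem pair_sum {n : ℕ} {κ : Type} [Fintype κ] (Φ : κ → ℝ) (c : κ → (Fin (n + 1) → W G) → ℝ)
    (a : (Fin n → V) → ℝ) :
    pair (gen G) a (fun w => ∑ e, Φ e * c e w) = ∑ e, Φ e * pair (gen G) a (c e) := by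
  unfold pair
  simp only [Finset.mul_sum]
  rw [Finset.sum_comm]
  exact Finset.sum_congr rfl fun e _ => Finset.sum_congr rfl fun v _ => by ring

end lin

/-- pull-back of good cochains along simplicial maps -/
theorem pull {n : ℕ} {V V₀ : Type} [Fintype V] [Fintype V₀] {G : SimpleGraph V}
    {G₀ : SimpleGraph V₀} (f : V → V₀) (hf : ∀ x y, G.Adj x y → f x = f y ∨ G₀.Adj (f x) (f y))
    {c : (Fin (n + 1) → W G₀) → ℝ} (hc : Good G₀ n c) (K : ℝ) (hK : ∀ w, |c w| ≤ K) :
    ∃ c' : (Fin (n + 1) → W G) → ℝ, Good G n c' ∧ (∀ w, |c' w| ≤ K) ∧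
      ∀ a : (Fin n → V) → ℝ, pair (gen G) a c' = pair (gen G₀) (push f a) c := by
  let φ : W G →* W G₀ := lft G (fun x => gen G₀ (f x)) (fun x => gen_sq _ _)
    (fun x y hxy => by
      rcases hf x y hxy with h | h
      · rw [h]
      · exact gen_comm _ h)
  have hφ : ∀ x, φ (gen G x) = gen G₀ (f x) := fun x => lft_gen _ _ _ _ _
  refine ⟨fun w => c (fun i => φ (w i)), ⟨?_, ?_, ⟨K, fun w => hK _⟩, ?_⟩, fun w => hK _, ?_⟩
  · intro x w
    simp only [map_mul, hφ]
    exact hc.gen _ _
  · intro w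
    exact hc.coc fun i => φ (w i)
  · intro w i hi
    exact hc.nrm _ i (congrArg φ hi)
  · intro a
    rw [pair_push]
    unfold pair
    refine Finset.sum_congr rfl fun v _ => ?_
    congr 1
    change c (fun i => φ (Fin.partialProd (gen G ∘ v) i)) = _
    congr 1
    funext i
    refine Fin.induction ?_ (fun j hj => ?_) i
    · rw [Fin.partialProd_zero, Fin.partialProd_zero, map_one]
    · rw [Fin.partialProd_succ, Fin.partialProd_succ, map_mul, hj]
      congr 1

/-- cocycles from weights which are additive on the 4-cycles -/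
theorem ex_weights (hH : S_H) (hU : S_U) (hB : S_B) (hV : S_V) (k : ℕ) (V : Type)
    [Fintype V] (G : SimpleGraph V) (col : V → ℕ) (hprop : ∀ u v, G.Adj u v → col u ≠ col v)
    (hcol : ∀ v, col v < 2 * k) (φ : Fin k → V → V → ℝ) (B : Fin k → ℝ)
    (hanti : ∀ i a b, φ i a b = - φ i b a)
    (hsq : ∀ (i : Fin k) a b z z', InP col i a → InP col i b → InP col i z → InP col i z' →
      G.Adj a z → G.Adj z b → G.Adj a z' → G.Adj z' b →
      φ i a z + φ i z b = φ i a z' + φ i z' b)
    (hB0 : ∀ i, 0 ≤ B i)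
    (hφ : ∀ (i : Fin k) a b, InP col i a → InP col i b → G.Adj a b → |φ i a b| ≤ B i) :
    ∃ c : (Fin (2 * k + 1) → W G) → ℝ, Good G (2 * k) c ∧ (∀ w, |c w| ≤ ∏ i, 48 * B i) ∧
      ∀ a : (Fin (2 * k) → V) → ℝ, IsCyc (2 * k) G a →
        pair (gen G) a c = ∑ v : Fin (2 * k) → V, a v * PR k (fun i s t =>
          if InP col i s ∧ InP col i t then 2 * φ i s t else 0) v := by
  have key : ∀ i : Fin k, ∃ C : W G → W G → W G → ℝ,
      (∀ s g₀ g₁ g₂, C (gen G s * g₀) (gen G s * g₁) (gen G s * g₂) =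
        (if InP col i s then -1 else 1) * C g₀ g₁ g₂) ∧
      (∀ g₀ g₁ g₂ g₃, C g₁ g₂ g₃ - C g₀ g₂ g₃ + C g₀ g₁ g₃ - C g₀ g₁ g₂ = 0) ∧
      (∀ g h, C g g h = 0 ∧ C g h h = 0) ∧
      (∀ g₀ g₁ g₂, |C g₀ g₁ g₂| ≤ 48 * B i) ∧
      (∀ s t, G.Adj s t → C 1 (gen G s) (gen G s * gen G t) =
        if InP col i s ∧ InP col i t then 2 * φ i s t else 0) := by
    intro i
    obtain ⟨C, c1, c2, c3, c4, c5⟩ := hH V G col hprop i Unit (fun _ => φ i) (B i)
      (fun _ => hanti i) (fun _ => hsq i) (fun a b h1 h2 h3 => by simpa using hφ i a b h1 h2 h3)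
      (hB0 i)
    exact ⟨C (), fun s => c1 () s, c2 (), c3 (), fun g₀ g₁ g₂ => by simpa using c4 g₀ g₁ g₂,
      fun s t => c5 () s t⟩
  choose C c1 c2 c3 c4 c5 using key
  have hbd : ∀ w, |PC k C w| ≤ ∏ i, 48 * B i := by
    intro w
    have h := hB (W G) Unit k (fun i => 48 * B i) (fun i _ => C i)
      (fun i g₀ g₁ g₂ => by simpa using c4 i g₀ g₁ g₂) w
    simpa using h
  refine ⟨PC k C, good_PC hU col hcol C c1 c2 c3 _ hbd, hbd, fun a ha => ?_⟩
  exact hV V G col k 0 C (fun i s t => if InP col i s ∧ InP col i t then 2 * φ i s t else 0)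
    (fun i s => by simpa using c1 i s) (fun i s t hst => by
      rw [c5 i s t hst]
      simp only [zero_add]
      split_ifs <;> rfl)
    (fun i s t hst => by
      rw [if_neg]
      simpa using hst) a ha.supp

/-- the edge `x y` of colours `2 i`, `2 i + 1` is in no 4-cycle of these colours -/
def GoodE {V : Type} (G : SimpleGraph V) (col : V → ℕ) (i : ℕ) (e : V × V) : Prop :=
  col e.1 = 2 * i ∧ col e.2 = 2 * i + 1 ∧ ∀ z w, col z = 2 * i → col w = 2 * i + 1 →
    G.Adj e.2 z → G.Adj z w → G.Adj w e.1 → z = e.1 ∨ w = e.2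

/-- cocycles from the simplices whose paired edges are in no 4-cycle -/
theorem ex_coloured (hH : S_H) (hU : S_U) (hB : S_B) (hV : S_V) (hE : S_E) (k : ℕ)
    (V : Type) [Fintype V] (G : SimpleGraph V) (col : V → ℕ)
    (hprop : ∀ u v, G.Adj u v → col u ≠ col v) (hcol : ∀ v, col v < 2 * k)
    (a : (Fin (2 * k) → V) → ℝ) (ha : IsCyc (2 * k) G a) :
    ∃ c : (Fin (2 * k + 1) → W G) → ℝ, Good G (2 * k) c ∧ (∀ w, |c w| ≤ 24 ^ k) ∧
      pair (gen G) a c = 2 ^ k * ∑ e : Fin k → V × V,
        if ∀ i : Fin k, GoodE G col i (e i) then |a (jn k e)| else 0 := by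
  let pr : Fin k → V × V → Prop := fun i e => GoodE G col i e
  let ψ : V × V → V → V → ℝ := fun e s t =>
    (if (s, t) = e then 1 else 0) - (if (t, s) = e then 1 else 0)
  let φ : Fin k → V × V → V → V → ℝ := fun i e s t => if pr i e then 1 / 2 * ψ e s t else 0
  have hψ0 : ∀ e s t, (s, t) ≠ e → (t, s) ≠ e → ψ e s t = 0 := by
    intro e s t h1 h2
    simp only [ψ]
    rw [if_neg h1, if_neg h2, sub_zero]
  have key : ∀ i : Fin k, ∃ C : V × V → W G → W G → W G → ℝ,
      (∀ j s g₀ g₁ g₂, C j (gen G s * g₀) (gen G s * g₁) (gen G s * g₂) =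
        (if InP col i s then -1 else 1) * C j g₀ g₁ g₂) ∧
      (∀ j g₀ g₁ g₂ g₃, C j g₁ g₂ g₃ - C j g₀ g₂ g₃ + C j g₀ g₁ g₃ - C j g₀ g₁ g₂ = 0) ∧
      (∀ j g h, C j g g h = 0 ∧ C j g h h = 0) ∧
      (∀ g₀ g₁ g₂, ∑ j, |C j g₀ g₁ g₂| ≤ 48 * (1 / 2)) ∧
      (∀ j s t, G.Adj s t → C j 1 (gen G s) (gen G s * gen G t) =
        if InP col i s ∧ InP col i t then 2 * φ i j s t else 0) := by
    intro i
    have hanti : ∀ j s t, φ i j s t = - φ i j t s := by
      intro j s t
      simp only [φ, ψ]
      split_ifs <;> ring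
    refine hH V G col hprop i (V × V) (φ i) (1 / 2) hanti ?_ ?_ (by norm_num)
    · intro j s t z z' h1 h2 h3 h4 h5 h6 h7 h8
      by_cases hst : s = t
      · subst hst
        rw [hanti j z s, hanti j z' s]
        ring
      by_cases hzz : z = z'
      · subst hzz
        rfl
      by_cases hp : pr i j
      · -- the edge is not in the 4-cycle
        have cs : ∀ {u v : V}, InP col i u → InP col i v → G.Adj u v →
            (col u = 2 * i ∧ col v = 2 * i + 1) ∨ (col v = 2 * i ∧ col u = 2 * i + 1) := by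
          intro u v hu hv huv
          have hne := hprop u v huv
          unfold InP at hu hv
          omega
        have zero : ∀ {u v p q : V}, InP col i u → InP col i v → InP col i p → InP col i q →
            G.Adj u v → G.Adj v p → G.Adj p q → G.Adj q u → u ≠ p → v ≠ q → φ i j u v = 0 := by
          intro u v p q hu hv hp' hq huv hvp hpq hqu hup hvq
          have h0 : ψ j u v = 0 := by
            refine hψ0 j u v ?_ ?_
            · intro he
              obtain ⟨q1, q2, q3⟩ := hp
              rw [← he] at q1 q2 q3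
              have c1 := cs hv hp' hvp
              have c2 := cs hq hu hqu
              simp only at q1 q2 q3
              rcases q3 p q (by omega) (by omega) hvp hpq hqu with h | h
              · exact hup h.symm
              · exact hvq h.symm
            · intro he
              obtain ⟨q1, q2, q3⟩ := hp
              rw [← he] at q1 q2 q3
              have c1 := cs hv hp' hvp
              have c2 := cs hq hu hqu
              simp only at q1 q2 q3
              rcases q3 q p (by omega) (by omega) hqu.symm hpq.symm hvp.symm with h | h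
              · exact hvq h.symm
              · exact hup h.symm
          simp only [φ]
          rw [h0]
          split_ifs <;> ring
        rw [zero h1 h3 h2 h4 h5 h6 h8.symm h7.symm hst hzz,
          zero h3 h2 h4 h1 h6 h8.symm h7.symm h5 hzz (Ne.symm hst),
          zero h1 h4 h2 h3 h7 h8 h6.symm h5.symm hst (Ne.symm hzz),
          zero h4 h2 h3 h1 h8 h6.symm h5.symm h7 (Ne.symm hzz) (Ne.symm hst)]
      · simp only [φ, if_neg hp]
    · intro s t h1 h2 hst
      -- only one of `(s, t)`, `(t, s)` is proper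
      have hne : s ≠ t := hst.ne
      have hval : ∀ e, |φ i e s t| ≤ (if e = (s, t) ∧ pr i e then 1 / 2 else 0) +
          (if e = (t, s) ∧ pr i e then 1 / 2 else 0) := by
        intro e
        simp only [φ, ψ]
        by_cases hp : pr i e
        · rw [if_pos hp]
          by_cases e1 : e = (s, t)
          · have e2 : e ≠ (t, s) := by
              rw [e1]
              intro h
              exact hne (Prod.ext_iff.1 h).1
            rw [if_pos e1.symm, if_neg (fun h => e2 h.symm), if_pos ⟨e1, hp⟩,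
              if_neg (fun h => e2 h.1)]
            norm_num
          · by_cases e2 : e = (t, s)
            · rw [if_neg (fun h => e1 h.symm), if_pos e2.symm, if_neg (fun h => e1 h.1),
                if_pos ⟨e2, hp⟩]
              norm_num
            · rw [if_neg (fun h => e1 h.symm), if_neg (fun h => e2 h.symm),
                if_neg (fun h => e1 h.1), if_neg (fun h => e2 h.1)]
              norm_num
        · rw [if_neg hp, abs_zero]
          positivity
      calc ∑ e, |φ i e s t| ≤ ∑ e, ((if e = (s, t) ∧ pr i e then (1 / 2 : ℝ) else 0) +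
          (if e = (t, s) ∧ pr i e then 1 / 2 else 0)) := Finset.sum_le_sum fun e _ => hval e
        _ = (if pr i (s, t) then (1 / 2 : ℝ) else 0) + (if pr i (t, s) then 1 / 2 else 0) := by
            rw [Finset.sum_add_distrib]
            congr 1
            · rw [Finset.sum_eq_single (s, t)]
              · simp
              · intro b _ hb
                rw [if_neg (fun h => hb h.1)]
              · intro h; exact absurd (Finset.mem_univ _) h
            · rw [Finset.sum_eq_single (t, s)]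
              · simp
              · intro b _ hb
                rw [if_neg (fun h => hb h.1)]
              · intro h; exact absurd (Finset.mem_univ _) h
        _ ≤ 1 / 2 := by
            by_cases p1 : pr i (s, t)
            · have p2 : ¬ pr i (t, s) := by
                rintro ⟨q1, q2, -⟩
                obtain ⟨r1, r2, -⟩ := p1
                simp only at q1 q2 r1 r2
                omega
              rw [if_pos p1, if_neg p2, add_zero]
            · rw [if_neg p1, zero_add]
              split_ifs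
              · exact le_refl _
              · norm_num
  choose C c1 c2 c3 c4 c5 using key
  -- the weights
  let Q : (Fin k → V × V) → Prop := fun e => ∀ i : Fin k, GoodE G col i (e i)
  let Φ : (Fin k → V × V) → ℝ := fun e => if Q e then (SignType.sign (a (jn k e)) : ℝ) else 0
  have hΦ : ∀ e, |Φ e| ≤ 1 := by
    intro e
    simp only [Φ]
    split_ifs
    · rcases lt_trichotomy (a (jn k e)) 0 with h | h | h
      · rw [sign_neg h]; simp
      · rw [h]; simp
      · rw [sign_pos h]; simp
    · simp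
  let c : (Fin (2 * k + 1) → W G) → ℝ := fun w => ∑ e, Φ e * PC k (fun i => C i (e i)) w
  have hbs : ∀ w, ∑ e : Fin k → V × V, |PC k (fun i => C i (e i)) w| ≤ 24 ^ k := by
    intro w
    have h := hB (W G) (V × V) k (fun _ => 48 * (1 / 2)) C (fun i => c4 i) w
    refine h.trans ?_
    rw [Finset.prod_const, Finset.card_univ, Fintype.card_fin]
    norm_num
  have hbd : ∀ w, |c w| ≤ 24 ^ k := by
    intro w
    calc |c w| ≤ ∑ e, |Φ e * PC k (fun i => C i (e i)) w| := Finset.abs_sum_le_sum_abs _ _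
      _ ≤ ∑ e : Fin k → V × V, |PC k (fun i => C i (e i)) w| := by
          refine Finset.sum_le_sum fun e _ => ?_
          rw [abs_mul]
          calc _ ≤ 1 * |PC k (fun i => C i (e i)) w| :=
                mul_le_mul_of_nonneg_right (hΦ e) (abs_nonneg _)
            _ = _ := one_mul _
      _ ≤ 24 ^ k := hbs w
  have hgood : Good G (2 * k) c := by
    refine good_sum Φ (fun e => PC k (fun i => C i (e i))) ?_ (24 ^ k) hbd
    intro e _
    refine good_PC hU col hcol (fun i => C i (e i)) (fun i => c1 i (e i)) (fun i => c2 i (e i))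
      (fun i => c3 i (e i)) (24 ^ k) ?_
    intro w
    exact (Finset.single_le_sum (f := fun e : Fin k → V × V => |PC k (fun i => C i (e i)) w|)
      (fun _ _ => abs_nonneg _) (Finset.mem_univ e)).trans (hbs w)
  refine ⟨c, hgood, hbd, ?_⟩
  rw [pair_sum Φ (fun e => PC k (fun i => C i (e i))) a, Finset.mul_sum]
  refine Finset.sum_congr rfl fun e _ => ?_
  by_cases hQ : Q e
  · rw [hV V G col k 0 (fun i => C i (e i)) (fun i => ψ (e i))
      (fun i s => by simpa using c1 i (e i) s)
      (fun i s t hst => by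
        rw [c5 i (e i) s t hst]
        simp only [zero_add]
        have hp : pr i (e i) := hQ i
        simp only [φ, if_pos hp]
        split_ifs
        · ring
        · rfl)
      (fun i s t hst => by
        simp only [zero_add] at hst
        obtain ⟨hp1, hp2, -⟩ := hQ i
        refine hψ0 _ _ _ ?_ ?_
        · intro h
          apply hst
          rw [← h] at hp1 hp2
          exact ⟨Or.inl hp1, Or.inr hp2⟩
        · intro h
          apply hst
          rw [← h] at hp1 hp2
          exact ⟨Or.inr hp2, Or.inl hp1⟩) a ha.supp]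
    have h := hE V k a ha.alt e
    simp only [ψ]
    rw [h]
    simp only [Φ]
    rw [if_pos hQ, if_pos hQ, mul_left_comm, sign_mul_self]
  · simp only [Φ]
    rw [if_neg hQ, if_neg hQ]
    ring

/-- (F2) the lower bound, with a simplicial map -/
theorem lower (hH : S_H) (hU : S_U) (hB : S_B) (hV : S_V) (hE : S_E) (hT : S_T) (k : ℕ)
    (V V₀ : Type) [Fintype V] [Fintype V₀] (G : SimpleGraph V) (G₀ : SimpleGraph V₀) (f : V → V₀)
    (hf : ∀ x y, G.Adj x y → f x = f y ∨ G₀.Adj (f x) (f y)) (col : V₀ → ℕ)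
    (hprop : ∀ u v, G₀.Adj u v → col u ≠ col v) (hcol : ∀ v, col v < 2 * k)
    (a : (Fin (2 * k) → V) → ℝ) (ha : IsCyc (2 * k) G a)
    (H : Subgroup (W G)) (hi : H.index ≠ 0) (hε : H ≤ (par G).ker) :
    (H.index : ℝ) * (∑ e : Fin k → V₀ × V₀,
      if ∀ i : Fin k, GoodE G₀ col i (e i) then |push f a (jn k e)| else 0) ≤
      48 ^ k * svol G (2 * k) a H := by
  obtain ⟨c₀, g₀, b₀, p₀⟩ := ex_coloured hH hU hB hV hE k V₀ G₀ col hprop hcol (push f a)
    (ha.push f hf)
  obtain ⟨c, gc, bc, pc⟩ := pull f hf g₀ _ b₀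
  have h := hT V G (2 * k) a c _ gc bc H hi hε
  rw [pc a, p₀] at h
  set S : ℝ := ∑ e : Fin k → V₀ × V₀,
    if ∀ i : Fin k, GoodE G₀ col i (e i) then |push f a (jn k e)| else 0 with hS
  have hS0 : 0 ≤ S := Finset.sum_nonneg fun e _ => by
    split_ifs
    · exact abs_nonneg _
    · exact le_refl _
  rw [abs_of_nonneg (by positivity)] at h
  have h2 : (0 : ℝ) < 2 ^ k := by positivity
  have h3 : (2 : ℝ) ^ (2 * k) = 2 ^ k * 2 ^ k := by rw [two_mul, pow_add]
  have h4 : (48 : ℝ) ^ k = 2 ^ k * 24 ^ k := by rw [← mul_pow]; norm_num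
  rw [h3] at h
  have h5 : 2 ^ k * ((H.index : ℝ) * S) ≤ 2 ^ k * (48 ^ k * svol G (2 * k) a H) := by
    rw [h4]
    calc 2 ^ k * ((H.index : ℝ) * S) = (H.index : ℝ) * (2 ^ k * S) := by ring
      _ ≤ _ := h
      _ = _ := by ring
  exact le_of_mul_le_mul_left h5 h2

/-- (F1) the lower bound for weights which are additive on 4-cycles -/
theorem weights (hH : S_H) (hU : S_U) (hB : S_B) (hV : S_V) (hT : S_T) (k : ℕ) (V V₀ : Type)
    [Fintype V] [Fintype V₀] (G : SimpleGraph V) (G₀ : SimpleGraph V₀) (f : V → V₀)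
    (hf : ∀ x y, G.Adj x y → f x = f y ∨ G₀.Adj (f x) (f y)) (col : V₀ → ℕ)
    (hprop : ∀ u v, G₀.Adj u v → col u ≠ col v) (hcol : ∀ v, col v < 2 * k)
    (φ : Fin k → V₀ → V₀ → ℝ) (B : Fin k → ℝ) (hanti : ∀ i a b, φ i a b = - φ i b a)
    (hsq : ∀ (i : Fin k) a b z z', InP col i a → InP col i b → InP col i z → InP col i z' →
      G₀.Adj a z → G₀.Adj z b → G₀.Adj a z' → G₀.Adj z' b →
      φ i a z + φ i z b = φ i a z' + φ i z' b)
    (hB0 : ∀ i, 0 ≤ B i)
    (hφ : ∀ (i : Fin k) a b, InP col i a → InP col i b → G₀.Adj a b → |φ i a b| ≤ B i)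
    (a : (Fin (2 * k) → V) → ℝ) (ha : IsCyc (2 * k) G a)
    (H : Subgroup (W G)) (hi : H.index ≠ 0) (hε : H ≤ (par G).ker) :
    (H.index : ℝ) * |∑ v : Fin (2 * k) → V₀, push f a v * PR k (fun i s t =>
      if InP col i s ∧ InP col i t then 2 * φ i s t else 0) v| ≤
      2 ^ (2 * k) * (∏ i, 48 * B i) * svol G (2 * k) a H := by
  obtain ⟨c₀, g₀, b₀, p₀⟩ := ex_weights hH hU hB hV k V₀ G₀ col hprop hcol φ B hanti hsq hB0 hφ
  obtain ⟨c, gc, bc, pc⟩ := pull f hf g₀ _ b₀
  have h := hT V G (2 * k) a c _ gc bc H hi hε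
  rw [pc a, p₀ _ (ha.push f hf)] at h
  exact h

end Pool.Agent.N13.QC
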