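import Pool.Agent.N13.QC.Stm2
import Pool.Agent.Y132.SI.Betti

/-!
Betti numbers are bounded by the number of cells.
-/

set_option autoImplicit false

open scoped Classical

namespace Pool.Agent.N13.QC

open Pool.Agent.W907.SG (W cox chiW)
open Pool.Agent.Q134.SV

/-- the number of the simplices with `n` vertices -/
noncomputable def ncl {V : Type} [Fintype V] (G : SimpleGraph V) (n : ℕ) : ℕ :=
  ((Finset.univ : Finset (Finset V)).filter fun T => G.IsNClique n T).card

theorem card_ncl {V : Type} [Fintype V] (G : SimpleGraph V) (n : ℕ)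
    (inst : Fintype {T : Finset V // G.IsNClique n T}) : @Fintype.card _ inst = ncl G n := by
  unfold ncl
  rw [← Fintype.card_subtype]

/-- the `i`-th Betti number is at most the index times the number of `i`-cliques -/
theorem finrank_HInv_le {V : Type} [Fintype V] [LinearOrder V] (G : SimpleGraph V)
    (H : Subgroup (W G)) (hH : H.index ≠ 0) (i : ℕ) :
    (Module.finrank ℝ (Pool.Agent.Y132.SI.HInv G H i) : ℝ) ≤ (H.index : ℝ) * ncl G i := by
  have hfi : H.FiniteIndex := ⟨hH⟩
  have hfin : Finite (Quotient (QuotientGroup.rightRel H)) :=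
    Finite.of_equiv _ (QuotientGroup.quotientRightRelEquivQuotientLeftRel H).symm
  have hft : Fintype (Quotient (QuotientGroup.rightRel H)) := Fintype.ofFinite _
  have hcard : Fintype.card (Quotient (QuotientGroup.rightRel H)) = H.index := by
    rw [← Nat.card_eq_fintype_card, Subgroup.index]
    exact Nat.card_congr (QuotientGroup.quotientRightRelEquivQuotientLeftRel H)
  let Φ : Pool.Agent.Y132.SI.HInv G H i →ₗ[ℝ]
      (Quotient (QuotientGroup.rightRel H) × {T : Finset V // G.IsNClique i T} → ℝ) :=
    { toFun := fun c x => c.1 x.1.out x.2.1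
      map_add' := fun c d => rfl
      map_smul' := fun r c => rfl }
  have hinj : Function.Injective Φ := by
    rw [← LinearMap.ker_eq_bot, LinearMap.ker_eq_bot']
    intro c hc
    apply Subtype.ext
    funext w T
    have h1 : ∀ h ∈ H, ∀ w T, c.1 (h * w) T = c.1 w T := c.2.1
    have h2 : ∀ w (T : Finset V), ¬ (G.IsClique (T : Set V) ∧ T.card = i) → c.1 w T = 0 := c.2.2.1
    by_cases hT : G.IsClique (T : Set V) ∧ T.card = i
    · have h3 := congrFun hc (Quotient.mk'' w, ⟨T, ⟨hT.1, hT.2⟩⟩)
      change c.1 (Quotient.mk'' w : Quotient (QuotientGroup.rightRel H)).out T = 0 at h3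
      have h4 : (QuotientGroup.rightRel H).r
          ((Quotient.mk'' w : Quotient (QuotientGroup.rightRel H)).out) w :=
        Quotient.mk_out (s := QuotientGroup.rightRel H) w
      have h5 := QuotientGroup.rightRel_apply.1 h4
      have h6 := h1 _ h5 ((Quotient.mk'' w : Quotient (QuotientGroup.rightRel H)).out) T
      rw [inv_mul_cancel_right] at h6
      change c.1 w T = 0
      rw [h6, h3]
    · exact h2 w T hT
  have h := LinearMap.finrank_le_finrank_of_injective hinj
  rw [Module.finrank_fintype_fun_eq_card, Fintype.card_prod, hcard, card_ncl] at h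
  exact_mod_cast h

end Pool.Agent.N13.QC
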