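import Mathlib

/-!
Reduced words, subtrees, and the vertices of the Davis complex of the right-angled Coxeter group of a
bipartite graph as pairs of reduced words.

`RW S`: reduced words (vertices of the Cayley tree of the free product of groups of order two).
`X`, `Y` are the two colour classes of a bipartite graph, `N y x` means that `x` and `y` are adjacent.
`Wl N`: the pairs of an element `y` of `Y` and a coset `g W` of the subgroup of the free product over
`X` which is generated by the neighbours of `y` (a subtree of the tree of `RW X`); the representative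
`g` is the shortest one.  `Om N = RW (Wl N) × RW X`.
-/

set_option autoImplicit false

open scoped Classical

namespace Pool.Agent.N13.QC

/-- reduced words -/
def RW (S : Type) : Type := {l : List S // l.IsChain (· ≠ ·)}

/-- the empty word -/
def RW.nil {S : Type} : RW S := ⟨[], List.IsChain.nil⟩

/-- left multiplication by a letter, on lists -/
noncomputable def lmul {S : Type} (s : S) : List S → List S
  | [] => [s]
  | t :: l => if s = t then l else s :: t :: l

theorem lmul_chain {S : Type} (s : S) (l : List S) (h : l.IsChain (· ≠ ·)) :
    (lmul s l).IsChain (· ≠ ·) := by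
  cases l with
  | nil => exact List.isChain_singleton s
  | cons t l =>
    change (if s = t then l else s :: t :: l).IsChain (· ≠ ·)
    split_ifs with hst
    · exact h.tail
    · exact List.isChain_cons_cons.2 ⟨hst, h⟩

/-- left multiplication by a letter -/
noncomputable def RW.mul {S : Type} (s : S) (w : RW S) : RW S := ⟨lmul s w.1, lmul_chain s w.1 w.2⟩

/-- the image of a word under an injective map of the letters -/
def RW.map {S T : Type} (σ : S → T) (hσ : Function.Injective σ) (w : RW S) : RW T :=
  ⟨w.1.map σ, (List.isChain_map σ).2 (w.2.imp fun _ _ h e => h (hσ e))⟩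

/-- the label of the first edge of the path from `p` to `f` in the tree of reduced words (`none` for
`p = f`) -/
noncomputable def dir {S : Type} (p f : RW S) : Option S :=
  if p.1 <+: f.1 then f.1[p.1.length]? else p.1.getLast?

variable {X Y : Type} (N : Y → X → Prop)

/-- walls: pairs of `y` and a coset `g W_{N(y)}` with its shortest representative -/
structure Wl where
  y : Y
  g : RW X
  last : ∀ x ∈ g.1.getLast?, ¬ N y x

/-- the wall at the base point -/
def Wl.base (y : Y) : Wl N := ⟨y, RW.nil, by intro x hx; simp [RW.nil] at hx⟩

variable {N}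

theorem act_last (x : X) (D : Wl N) (h : ¬ (D.g.1 = [] ∧ N D.y x)) :
    ∀ z ∈ (RW.mul x D.g).1.getLast?, ¬ N D.y z := by
  obtain ⟨y, ⟨l, hl⟩, hD⟩ := D
  intro z hz
  cases l with
  | nil =>
    simp only [RW.mul, lmul, List.getLast?_singleton, Option.mem_def, Option.some.injEq] at hz
    subst hz
    exact fun hn => h ⟨rfl, hn⟩
  | cons t l =>
    simp only [RW.mul, lmul] at hz
    refine hD z ?_
    split_ifs at hz with hxt
    · cases l with
      | nil => simp at hz
      | cons u l => simpa using hz
    · simpa using hz

/-- the action of the letters of `X` on the walls -/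
noncomputable def Wl.act (x : X) (D : Wl N) : Wl N :=
  if h : D.g.1 = [] ∧ N D.y x then D else ⟨D.y, RW.mul x D.g, act_last x D h⟩

/-- `p` is in the subtree `g W_{N(y)}` -/
def Wl.mem (D : Wl N) (p : RW X) : Prop :=
  D.g.1 <+: p.1 ∧ ∀ x ∈ p.1.drop D.g.1.length, N D.y x

/-- the label at `p` of the direction to a vertex or to a subtree: the first edge of the path, or `y`
if `p` is in the subtree of type `y` -/
noncomputable def lab (p : RW X) : RW X ⊕ Wl N → Option (X ⊕ Y)
  | Sum.inl f => (dir p f).map Sum.inl
  | Sum.inr D => if D.mem p then some (Sum.inr D.y) else (dir p D.g).map Sum.inl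

variable (N)

/-- the vertices of the Davis complex -/
abbrev Om : Type := RW (Wl N) × RW X

variable {N}

/-- the base point -/
def Om.o : Om N := (RW.nil, RW.nil)

/-- the target of `v` in the region of the first coordinate of `u` -/
noncomputable def tgt (m : RW (Wl N)) (v : Om N) : RW X ⊕ Wl N :=
  match dir m v.1 with
  | none => Sum.inl v.2
  | some D => Sum.inr D

/-- the label at `u` of the direction to `v` -/
noncomputable def lam (u v : Om N) : Option (X ⊕ Y) := lab u.2 (tgt u.1 v)

/-- the parity -/
noncomputable def eps (u : Om N) : ℝ := (-1) ^ (u.1.1.length + u.2.1.length)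

/-- adjacency in the bipartite graph -/
def Nb (N : Y → X → Prop) : X ⊕ Y → X ⊕ Y → Prop
  | Sum.inl x, Sum.inr y => N y x
  | Sum.inr y, Sum.inl x => N y x
  | _, _ => False

/-- the label is `z` or a neighbour of `z` -/
def InB (N : Y → X → Prop) (z : X ⊕ Y) (a : Option (X ⊕ Y)) : Prop :=
  a = some z ∨ ∃ u, a = some u ∧ Nb N u z

/-- two of the labels are equal, or all of them are in the closed neighbourhood of a vertex -/
def Tame (N : Y → X → Prop) (a b c : Option (X ⊕ Y)) : Prop :=
  a = b ∨ b = c ∨ a = c ∨ ∃ z, InB N z a ∧ InB N z b ∧ InB N z c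

/-- a potential: antisymmetric, zero at `none`, and additive on closed neighbourhoods -/
structure Pot (N : Y → X → Prop) (P : Option (X ⊕ Y) → Option (X ⊕ Y) → ℝ) : Prop where
  anti : ∀ a b, P a b = - P b a
  none : ∀ b, P none b = 0
  add : ∀ z a b, InB N z a → InB N z b → P a b = P a (some z) + P (some z) b

/-- the local term -/
def FF (P : Option (X ⊕ Y) → Option (X ⊕ Y) → ℝ) (a b c : Option (X ⊕ Y)) : ℝ :=
  P a b + P b c + P c a

/-- the cochain -/
noncomputable def cc (P : Option (X ⊕ Y) → Option (X ⊕ Y) → ℝ) (g₀ g₁ g₂ : Om N) : ℝ :=
  ∑ᶠ v : Om N, eps v * FF P (lam v g₀) (lam v g₁) (lam v g₂)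

end Pool.Agent.N13.QC
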