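import Pool.Agent.Q134.SV.Cls

/-!
Products of 2-cochains, and the simplicial volume.
-/

set_option autoImplicit false

open scoped Classical

namespace Pool.Agent.N13.QC

open Pool.Agent.W907.SG (W cox chiW)
open Pool.Agent.Q134.SV

/-- the product of `k` cochains of degree two: `∏ C_i (w_{2i}, w_{2i+1}, w_{2i+2})` -/
noncomputable def PC {Γ : Type} : (k : ℕ) → (Fin k → Γ → Γ → Γ → ℝ) → (Fin (2 * k + 1) → Γ) → ℝ
  | 0, _ => fun _ => 1
  | k + 1, C => fun w => C 0 (w 0) (w 1) (w 2) * PC k (fun i => C i.succ) fun i => w i.succ.succ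

/-- the product `∏ ψ_i (v_{2i}, v_{2i+1})` -/
noncomputable def PR {V : Type} : (k : ℕ) → (Fin k → V → V → ℝ) → (Fin (2 * k) → V) → ℝ
  | 0, _ => fun _ => 1
  | k + 1, ψ => fun v => ψ 0 (v 0) (v 1) * PR k (fun i => ψ i.succ) fun i => v i.succ.succ

/-- the tuple `(x_0, y_0, x_1, y_1, …)` -/
def jn {V : Type} : (k : ℕ) → (Fin k → V × V) → Fin (2 * k) → V
  | 0, _ => fun i => i.elim0
  | k + 1, e => Fin.cons (e 0).1 (Fin.cons (e 0).2 (jn k fun i => e i.succ))

/-- Let `a` be an `(n-1)`-cycle of the flag complex `L` of `G` and `H` a subgroup of `W G`. The chain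
`2^(-n) ∑_q ε(q) ∑_v a(v) (q, q v_1, q v_1 v_2, …)`, `q` in a set of representatives of the cosets
`H q`. If `a` is the fundamental cycle of `L` then this is the fundamental cycle of the quotient of the
Davis complex by `H`: the cube at `q` which is spanned by the simplex `v` of `L` is divided into
`n!` simplices, and each cube has `2^n` vertices. -/
noncomputable def fch {V : Type} [Fintype V] (G : SimpleGraph V) (n : ℕ) (a : (Fin n → V) → ℝ)
    (H : Subgroup (W G)) : (Fin (n + 1) → W G) →₀ ℝ :=
  (1 / 2 : ℝ) ^ n • ∑ᶠ q : Quotient (QuotientGroup.rightRel H), ∑ v : Fin n → V,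
    Finsupp.single (fun i => q.out * Fin.partialProd (gen G ∘ v) i) (((par G q.out : ℤ) : ℝ) * a v)

/-- Two real chains (of the simplices with vertices in `W G`, modulo `H`) differ by a boundary: they
have the same value at all `H`-invariant cocycles. -/
def Homol {V : Type} (G : SimpleGraph V) (n : ℕ) (H : Subgroup (W G))
    (z z' : (Fin (n + 1) → W G) →₀ ℝ) : Prop :=
  ∀ c : (Fin (n + 1) → W G) → ℝ, (∀ h ∈ H, ∀ g, c (fun i => h * g i) = c g) →
    (∀ g : Fin (n + 2) → W G, cobd c g = 0) →
    (z.sum fun g t => t * c g) = z'.sum fun g t => t * c g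

/-- The `ℓ¹`-seminorm of the class of `fch G n a H`: the simplicial volume of the quotient `M` of the
Davis complex by `H`, if `a` is the fundamental cycle of the flag complex. -/
noncomputable def svol {V : Type} [Fintype V] (G : SimpleGraph V) (n : ℕ) (a : (Fin n → V) → ℝ)
    (H : Subgroup (W G)) : ℝ :=
  sInf {r | ∃ z : (Fin (n + 1) → W G) →₀ ℝ, Homol G n H z (fch G n a H) ∧
    r = z.sum fun _ t => |t|}

end Pool.Agent.N13.QC
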