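import Pool.Agent.N13.QC.Stm2

/-!
Leaf QC/XS: the Euler characteristic of a pure complex and sorted tuples.
-/

set_option autoImplicit false

open scoped Classical

namespace Pool.Agent.N13.QC

open Finset
open Pool.Agent.W907.SG (W cox chiW)
open Pool.Agent.Q134.SV

namespace Xs

theorem sum_powerset {V : Type} (T : Finset V) :
    ∑ t ∈ T.powerset, (1 / 2 : ℝ) ^ t.card = (3 / 2) ^ T.card := by
  have h := Finset.sum_pow_mul_eq_add_pow (1 / 2 : ℝ) 1 T
  simp only [one_pow, mul_one] at h
  rw [h]
  norm_num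

theorem jn_eq {V : Type} : ∀ (k : ℕ) (v : Fin (2 * k) → V),
    jn k (fun i => (v ⟨2 * (i : ℕ), by omega⟩, v ⟨2 * (i : ℕ) + 1, by omega⟩)) = v := by
  intro k
  induction k with
  | zero => intro v; exact funext fun i => i.elim0
  | succ k ih =>
    intro v
    have h1 := ih (fun j => v (Fin.succ (Fin.succ j)))
    change Fin.cons (α := fun _ => V) (v ⟨0, by omega⟩) (Fin.cons (α := fun _ => V) (v ⟨1, by omega⟩)
      (jn k fun i => (v ⟨2 * ((i : ℕ) + 1), by omega⟩, v ⟨2 * ((i : ℕ) + 1) + 1, by omega⟩))) = v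
    have h2 : (jn k fun i : Fin k => (v ⟨2 * ((i : ℕ) + 1), by omega⟩,
        v ⟨2 * ((i : ℕ) + 1) + 1, by omega⟩)) = fun j => v (Fin.succ (Fin.succ j)) := by
      exact h1
    rw [h2]
    funext i
    refine Fin.cases ?_ (fun j => ?_) i
    · rfl
    · refine Fin.cases ?_ (fun l => ?_) j
      · rfl
      · rfl

end Xs

open Xs

/-- QC/X -/
theorem t_X : S_X := by
  intro V _ G n hpure
  have h1 : |(chiW G : ℝ)| ≤ ∑ T : Finset V, if G.IsClique (T : Set V) then (1 / 2 : ℝ) ^ T.card
      else 0 := by
    unfold chiW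
    push_cast
    refine (Finset.abs_sum_le_sum_abs _ _).trans (le_of_eq ?_)
    refine Finset.sum_congr rfl fun T _ => ?_
    split_ifs with h
    · push_cast
      rw [abs_pow]
      norm_num
    · simp
  refine h1.trans ?_
  set Nn : Finset (Finset V) := (Finset.univ : Finset (Finset V)).filter fun T => G.IsNClique n T
    with hNn
  have h2 : ∀ T : Finset V, (if G.IsClique (T : Set V) then (1 / 2 : ℝ) ^ T.card else 0) ≤
      ∑ T' ∈ Nn, if T ⊆ T' then (1 / 2 : ℝ) ^ T.card else 0 := by
    intro T
    split_ifs with h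
    · obtain ⟨T', hT', hN⟩ := hpure T h
      have h3 : T' ∈ Nn := by rw [hNn, Finset.mem_filter]; exact ⟨Finset.mem_univ _, hN⟩
      have h4 := Finset.single_le_sum (f := fun T' => if T ⊆ T' then (1 / 2 : ℝ) ^ T.card else 0)
        (fun T' _ => by split_ifs <;> positivity) h3
      simp only [if_pos hT'] at h4
      exact h4
    · exact Finset.sum_nonneg fun T' _ => by split_ifs <;> positivity
  refine (Finset.sum_le_sum fun T _ => h2 T).trans ?_
  rw [Finset.sum_comm]
  have h3 : ∀ T' ∈ Nn, ∑ T : Finset V, (if T ⊆ T' then (1 / 2 : ℝ) ^ T.card else 0) =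
      (3 / 2) ^ n := by
    intro T' hT'
    rw [hNn, Finset.mem_filter] at hT'
    rw [← Finset.sum_filter, ← hT'.2.card_eq, ← Xs.sum_powerset T']
    refine Finset.sum_congr ?_ fun _ _ => rfl
    ext T
    simp
  rw [Finset.sum_congr rfl h3, Finset.sum_const, nsmul_eq_mul, mul_comm]

/-- QC/S -/
theorem t_S : S_S := by
  intro V _ G col k hcol hlt a ha
  set Q : Finset (Fin k → V × V) := Finset.univ.filter fun e =>
    (∀ i, col (e i).1 = 2 * (i : ℕ) ∧ col (e i).2 = 2 * (i : ℕ) + 1) ∧
      ∀ i j, i ≠ j → G.Adj (jn k e i) (jn k e j) with hQ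
  have h1 : (Q.card : ℝ) ≤ ∑ e : Fin k → V × V,
      if ∀ i, col (e i).1 = 2 * (i : ℕ) ∧ col (e i).2 = 2 * (i : ℕ) + 1 then |a (jn k e)| else 0 := by
    have h2 : (Q.card : ℝ) = ∑ e : Fin k → V × V, if e ∈ Q then (1 : ℝ) else 0 := by
      simp
    rw [h2]
    refine Finset.sum_le_sum fun e _ => ?_
    by_cases he : e ∈ Q
    · rw [if_pos he]
      rw [hQ, Finset.mem_filter] at he
      rw [if_pos he.2.1, ha _ he.2.2]
    · rw [if_neg he]
      split_ifs
      · exact abs_nonneg _
      · exact le_rfl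
  refine le_trans ?_ h1
  norm_cast
  have h3 : ((Finset.univ : Finset (Finset V)).filter fun T => G.IsNClique (2 * k) T) ⊆
      Q.image fun e => Finset.univ.image (jn k e) := by
    intro T hT
    rw [Finset.mem_filter] at hT
    obtain ⟨-, hcl, hcard⟩ := hT
    have hinj : Set.InjOn col (T : Set V) := by
      intro u hu v hv huv
      by_contra hne
      exact hcol u v (hcl hu hv hne) huv
    have himg : T.image col = Finset.range (2 * k) := by
      refine Finset.eq_of_subset_of_card_le ?_ ?_
      · intro j hj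
        obtain ⟨v, -, rfl⟩ := Finset.mem_image.1 hj
        exact Finset.mem_range.2 (hlt v)
      · rw [Finset.card_image_of_injOn hinj, hcard, Finset.card_range]
    have hex : ∀ j : Fin (2 * k), ∃ v ∈ T, col v = j := by
      intro j
      have hj : (j : ℕ) ∈ T.image col := by
        rw [himg]
        exact Finset.mem_range.2 j.2
      exact Finset.mem_image.1 hj
    choose v hvT hvc using hex
    have hvinj : Function.Injective v := by
      intro i j hij
      have := congrArg col hij
      rw [hvc, hvc] at this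
      exact Fin.ext this
    refine Finset.mem_image.2 ⟨fun i => (v ⟨2 * (i : ℕ), by omega⟩, v ⟨2 * (i : ℕ) + 1, by omega⟩),
      ?_, ?_⟩
    · rw [hQ, Finset.mem_filter]
      refine ⟨Finset.mem_univ _, fun i => ⟨hvc _, hvc _⟩, fun i j hij => ?_⟩
      rw [jn_eq k v]
      exact hcl (hvT i) (hvT j) (fun h => hij (hvinj h))
    · rw [jn_eq k v]
      refine Finset.eq_of_subset_of_card_le ?_ ?_
      · intro w hw
        obtain ⟨i, -, rfl⟩ := Finset.mem_image.1 hw
        exact hvT i
      · rw [Finset.card_image_of_injective _ hvinj, hcard, Finset.card_univ, Fintype.card_fin]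
  exact (Finset.card_le_card h3).trans Finset.card_image_le

end Pool.Agent.N13.QC
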