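import Pool.Agent.N13.QC.Asm
import Pool.Agent.N13.QC.Xs
import Pool.Agent.N13.QC.Bet

/-!
Counting for coloured nerves, posets and barycentric subdivisions.
-/

set_option autoImplicit false

open scoped Classical

namespace Pool.Agent.N13.QC

open Pool.Agent.W907.SG (W cox chiW)
open Pool.Agent.Q134.SV

/-- `col` is a proper colouring of the vertices by `0, …, 2 k - 1`, and there are no 4-cycles of the
colours `2 i`, `2 i + 1`. -/
structure PCol (k : ℕ) {V : Type} (G : SimpleGraph V) (col : V → ℕ) : Prop where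
  lt : ∀ v, col v < 2 * k
  adj : ∀ u v, G.Adj u v → col u ≠ col v
  sq : ∀ x x' y y', Even (col x) → col x' = col x → col y = col x + 1 → col y' = col x + 1 →
    G.Adj x y → G.Adj x y' → G.Adj x' y → G.Adj x' y' → x = x' ∨ y = y'

theorem jn_val {V : Type} : ∀ (k : ℕ) (e : Fin k → V × V) (i : Fin k),
    jn k e ⟨2 * (i : ℕ), by omega⟩ = (e i).1 ∧ jn k e ⟨2 * (i : ℕ) + 1, by omega⟩ = (e i).2 := by
  intro k
  induction k with
  | zero => intro e i; exact i.elim0
  | succ k ih =>
    intro e i
    refine Fin.cases ?_ (fun i => ?_) i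
    · exact ⟨rfl, rfl⟩
    · exact ih (fun i => e i.succ) i

/-- pairs of vertices as tuples -/
def jnE (V : Type) (k : ℕ) : (Fin k → V × V) ≃ (Fin (2 * k) → V) where
  toFun := jn k
  invFun v := fun i => (v ⟨2 * (i : ℕ), by omega⟩, v ⟨2 * (i : ℕ) + 1, by omega⟩)
  left_inv e := by
    funext i
    exact Prod.ext (jn_val k e i).1 (jn_val k e i).2
  right_inv v := Xs.jn_eq k v

theorem abs_perm {V : Type} {n : ℕ} (a : (Fin n → V) → ℝ)
    (ha : ∀ (v : Fin n → V) (i j : Fin n), i ≠ j → a (v ∘ Equiv.swap i j) = - a v)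
    (σ : Equiv.Perm (Fin n)) : ∀ v : Fin n → V, |a (v ∘ σ)| = |a v| := by
  induction σ using Equiv.Perm.swap_induction_on with
  | one => intro v; rfl
  | swap_mul f x y hxy ih =>
    intro v
    have h : v ∘ (Equiv.swap x y * f : Equiv.Perm (Fin n)) = (v ∘ Equiv.swap x y) ∘ f := rfl
    rw [h, ih, ha v x y hxy, abs_neg]

theorem exists_sort {V : Type} {G : SimpleGraph V} {col : V → ℕ} {n : ℕ}
    (hprop : ∀ u v, G.Adj u v → col u ≠ col v) (hcol : ∀ v, col v < n) (v : Fin n → V)
    (hv : ∀ i j, i ≠ j → G.Adj (v i) (v j)) :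
    ∃ σ : Equiv.Perm (Fin n), ∀ i, col (v (σ i)) = i := by
  let g : Fin n → Fin n := fun i => ⟨col (v i), hcol _⟩
  have hg : Function.Injective g := by
    intro i j hij
    by_contra hne
    exact hprop _ _ (hv i j hne) (Fin.ext_iff.1 hij)
  have hb : Function.Bijective g := Finite.injective_iff_bijective.1 hg
  refine ⟨(Equiv.ofBijective g hb).symm, fun i => ?_⟩
  have := (Equiv.ofBijective g hb).apply_symm_apply i
  exact Fin.ext_iff.1 this

/-- the sum of the absolute values at the sorted simplices -/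
noncomputable def srt {V : Type} [Fintype V] (col : V → ℕ) (k : ℕ) (a : (Fin (2 * k) → V) → ℝ) : ℝ :=
  ∑ e : Fin k → V × V, if ∀ i, col (e i).1 = 2 * i ∧ col (e i).2 = 2 * i + 1 then |a (jn k e)|
    else 0

theorem l1_le {V : Type} [Fintype V] {G : SimpleGraph V} {col : V → ℕ} {k : ℕ}
    (h : PCol k G col) {a : (Fin (2 * k) → V) → ℝ} (ha : IsCyc (2 * k) G a) :
    ∑ v, |a v| ≤ (2 * k).factorial * srt col k a := by
  let s : (Fin (2 * k) → V) → Prop := fun v => ∀ i : Fin (2 * k), col (v i) = i
  have h1 : ∀ v : Fin (2 * k) → V,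
      |a v| ≤ ∑ σ : Equiv.Perm (Fin (2 * k)), if s (v ∘ σ) then |a (v ∘ σ)| else 0 := by
    intro v
    by_cases hv : a v = 0
    · rw [hv, abs_zero]
      exact Finset.sum_nonneg fun σ _ => by
        split_ifs
        · exact abs_nonneg _
        · exact le_refl _
    · obtain ⟨σ, hσ⟩ := exists_sort h.adj h.lt v (ha.supp v hv)
      refine le_trans ?_ (Finset.single_le_sum
        (f := fun σ : Equiv.Perm (Fin (2 * k)) => if s (v ∘ σ) then |a (v ∘ σ)| else 0)
        (fun σ _ => by
          split_ifs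
          · exact abs_nonneg _
          · exact le_refl _) (Finset.mem_univ σ))
      rw [if_pos (show s (v ∘ σ) from hσ), abs_perm a ha.alt]
  have h2 : ∀ σ : Equiv.Perm (Fin (2 * k)),
      (∑ v : Fin (2 * k) → V, if s (v ∘ σ) then |a (v ∘ σ)| else 0) =
        ∑ v : Fin (2 * k) → V, if s v then |a v| else 0 := by
    intro σ
    exact Fintype.sum_equiv (Equiv.arrowCongr σ.symm (Equiv.refl V)) _ _ fun v => rfl
  have h3 : (∑ v : Fin (2 * k) → V, if s v then |a v| else 0) ≤ srt col k a := by
    rw [← Equiv.sum_comp (jnE V k)]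
    refine Finset.sum_le_sum fun e _ => ?_
    change (if s (jn k e) then |a (jn k e)| else 0) ≤ _
    by_cases hs : s (jn k e)
    · rw [if_pos hs, if_pos]
      intro i
      have j := jn_val k e i
      rw [← j.1, ← j.2]
      exact ⟨hs _, hs _⟩
    · rw [if_neg hs]
      split_ifs
      · exact abs_nonneg _
      · exact le_refl _
  calc ∑ v, |a v| ≤ ∑ v : Fin (2 * k) → V, ∑ σ : Equiv.Perm (Fin (2 * k)),
        (if s (v ∘ σ) then |a (v ∘ σ)| else 0) := Finset.sum_le_sum fun v _ => h1 v
    _ = ∑ σ : Equiv.Perm (Fin (2 * k)), ∑ v : Fin (2 * k) → V,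
        (if s (v ∘ σ) then |a (v ∘ σ)| else 0) := Finset.sum_comm
    _ = ∑ _σ : Equiv.Perm (Fin (2 * k)), ∑ v : Fin (2 * k) → V, (if s v then |a v| else 0) :=
        Finset.sum_congr rfl fun σ _ => h2 σ
    _ = (2 * k).factorial * ∑ v : Fin (2 * k) → V, (if s v then |a v| else 0) := by
        rw [Finset.sum_const, Finset.card_univ, Fintype.card_perm, Fintype.card_fin, nsmul_eq_mul]
    _ ≤ _ := mul_le_mul_of_nonneg_left h3 (by positivity)

theorem push_id {V : Type} [Fintype V] {n : ℕ} (a : (Fin n → V) → ℝ) : push id a = a := by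
  funext u
  unfold push
  simp

/-- all sorted simplices are good -/
theorem srt_le {V : Type} [Fintype V] {G : SimpleGraph V} {col : V → ℕ} {k : ℕ}
    (h : PCol k G col) {a : (Fin (2 * k) → V) → ℝ} (ha : IsCyc (2 * k) G a) :
    srt col k a ≤ ∑ e : Fin k → V × V,
      if ∀ i : Fin k, GoodE G col i (e i) then |push id a (jn k e)| else 0 := by
  rw [push_id]
  refine Finset.sum_le_sum fun e _ => ?_
  by_cases h1 : ∀ i : Fin k, col (e i).1 = 2 * i ∧ col (e i).2 = 2 * i + 1
  · rw [if_pos h1]
    by_cases h2 : a (jn k e) = 0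
    · rw [h2, abs_zero]
      simp
    · rw [if_pos]
      intro i
      refine ⟨(h1 i).1, (h1 i).2, fun z w hz hw h3 h4 h5 => ?_⟩
      have j := jn_val k e i
      have hadj : G.Adj (e i).1 (e i).2 := by
        rw [← j.1, ← j.2]
        exact ha.supp _ h2 _ _ (by simp)
      have he : Even (col (e i).1) := by
        rw [(h1 i).1]
        exact even_two_mul _
      rcases h.sq (e i).1 z (e i).2 w he (by rw [hz, (h1 i).1]) (by rw [(h1 i).1, (h1 i).2])
        (by rw [hw, (h1 i).1]) hadj h5.symm h3.symm h4 with h6 | h6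
      · exact Or.inl h6.symm
      · exact Or.inr h6.symm
  · rw [if_neg h1]
    split_ifs
    · exact abs_nonneg _
    · exact le_refl _

/-! ### the upper bound -/

theorem nrm_add {S : Type} (z z' : S →₀ ℝ) :
    ((z + z').sum fun _ t => |t|) ≤ (z.sum fun _ t => |t|) + z'.sum fun _ t => |t| := by
  rw [Finsupp.sum_of_support_subset z (Finset.subset_union_left (s₂ := z'.support)) _
      (fun _ _ => abs_zero),
    Finsupp.sum_of_support_subset z' (Finset.subset_union_right (s₁ := z.support)) _
      (fun _ _ => abs_zero),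
    Finsupp.sum_of_support_subset (z + z') Finsupp.support_add _ (fun _ _ => abs_zero),
    ← Finset.sum_add_distrib]
  exact Finset.sum_le_sum fun g _ => abs_add_le _ _

theorem nrm_sum {S ι : Type} (s : Finset ι) (z : ι → S →₀ ℝ) :
    ((∑ i ∈ s, z i).sum fun _ t => |t|) ≤ ∑ i ∈ s, (z i).sum fun _ t => |t| := by
  induction s using Finset.induction_on with
  | empty => simp
  | insert i s hi ih =>
    rw [Finset.sum_insert hi, Finset.sum_insert hi]
    exact (nrm_add _ _).trans (by linarith)

/-- the upper bound of the simplicial volume -/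
theorem svol_le {V : Type} [Fintype V] (G : SimpleGraph V) (n : ℕ) (a : (Fin n → V) → ℝ)
    (H : Subgroup (W G)) (hH : H.index ≠ 0) :
    2 ^ n * svol G n a H ≤ (H.index : ℝ) * ∑ v, |a v| := by
  have hfi : H.FiniteIndex := ⟨hH⟩
  have hfin : Finite (Quotient (QuotientGroup.rightRel H)) :=
    Finite.of_equiv _ (QuotientGroup.quotientRightRelEquivQuotientLeftRel H).symm
  have hft : Fintype (Quotient (QuotientGroup.rightRel H)) := Fintype.ofFinite _
  have hcard : Fintype.card (Quotient (QuotientGroup.rightRel H)) = H.index := by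
    rw [← Nat.card_eq_fintype_card, Subgroup.index]
    exact Nat.card_congr (QuotientGroup.quotientRightRelEquivQuotientLeftRel H)
  have h1 : svol G n a H ≤ (fch G n a H).sum fun _ t => |t| := by
    refine csInf_le ⟨0, ?_⟩ ⟨fch G n a H, fun _ _ _ => rfl, rfl⟩
    rintro r ⟨z, -, rfl⟩
    exact Finset.sum_nonneg fun _ _ => abs_nonneg _
  have h2 : ((fch G n a H).sum fun _ t => |t|) ≤ (1 / 2) ^ n * ((H.index : ℝ) * ∑ v, |a v|) := by
    rw [fch, finsum_eq_sum_of_fintype, Finsupp.sum_smul_index (fun _ => abs_zero)]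
    have h3 : ∀ z : (Fin (n + 1) → W G) →₀ ℝ, (z.sum fun _ t => |(1 / 2 : ℝ) ^ n * t|) =
        (1 / 2) ^ n * z.sum fun _ t => |t| := by
      intro z
      unfold Finsupp.sum
      rw [Finset.mul_sum]
      refine Finset.sum_congr rfl fun g _ => ?_
      dsimp only
      rw [abs_mul, abs_of_pos (by positivity : (0 : ℝ) < (1 / 2) ^ n)]
    rw [h3]
    refine mul_le_mul_of_nonneg_left ?_ (by positivity)
    refine (nrm_sum _ _).trans ?_
    have h4 : ∀ q : Quotient (QuotientGroup.rightRel H),
        ((∑ v : Fin n → V, Finsupp.single (fun i => q.out * Fin.partialProd (gen G ∘ v) i)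
          (((par G q.out : ℤ) : ℝ) * a v)).sum fun _ t => |t|) ≤ ∑ v, |a v| := by
      intro q
      refine (nrm_sum _ _).trans (Finset.sum_le_sum fun v _ => ?_)
      rw [Finsupp.sum_single_index abs_zero, abs_mul]
      have h5 : |(((par G q.out : ℤˣ) : ℤ) : ℝ)| = 1 := by
        rcases Int.units_eq_one_or (par G q.out) with h | h
        · rw [h]; simp
        · rw [h]; simp
      rw [h5, one_mul]
    refine (Finset.sum_le_sum fun q _ => h4 q).trans ?_
    rw [Finset.sum_const, Finset.card_univ, hcard, nsmul_eq_mul]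
  have h6 : (2 : ℝ) ^ n * (1 / 2) ^ n = 1 := by
    rw [← mul_pow]
    norm_num
  calc 2 ^ n * svol G n a H ≤ 2 ^ n * ((1 / 2) ^ n * ((H.index : ℝ) * ∑ v, |a v|)) :=
        mul_le_mul_of_nonneg_left (h1.trans h2) (by positivity)
    _ = _ := by rw [← mul_assoc, h6, one_mul]

/-- the number of all cliques of a pure complex -/
theorem card_cliques {V : Type} [Fintype V] {G : SimpleGraph V} {n : ℕ}
    (hpure : ∀ T : Finset V, G.IsClique (T : Set V) → ∃ T' : Finset V, T ⊆ T' ∧ G.IsNClique n T')
    (m : ℕ) : (∑ i ∈ Finset.range m, (ncl G i : ℝ)) ≤ 2 ^ n * ncl G n := by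
  unfold ncl
  have h1 : ∑ i ∈ Finset.range m,
      ((Finset.univ : Finset (Finset V)).filter fun T => G.IsNClique i T).card =
      ((Finset.range m).biUnion fun i =>
        (Finset.univ : Finset (Finset V)).filter fun T => G.IsNClique i T).card := by
    rw [Finset.card_biUnion]
    intro i _ j _ hij
    rw [Function.onFun, Finset.disjoint_left]
    intro T hi hj
    rw [Finset.mem_filter] at hi hj
    exact hij (hi.2.card_eq.symm.trans hj.2.card_eq)
  have h2 : ((Finset.range m).biUnion fun i =>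
        (Finset.univ : Finset (Finset V)).filter fun T => G.IsNClique i T) ⊆
      ((Finset.univ : Finset (Finset V)).filter fun T => G.IsNClique n T).biUnion
        fun T => T.powerset := by
    intro T hT
    rw [Finset.mem_biUnion] at hT
    obtain ⟨i, -, hi⟩ := hT
    rw [Finset.mem_filter] at hi
    obtain ⟨T', h3, h4⟩ := hpure T hi.2.isClique
    rw [Finset.mem_biUnion]
    exact ⟨T', Finset.mem_filter.2 ⟨Finset.mem_univ _, h4⟩, Finset.mem_powerset.2 h3⟩
  have h3 : (((Finset.univ : Finset (Finset V)).filter fun T => G.IsNClique n T).biUnion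
        fun T => T.powerset).card ≤
      ((Finset.univ : Finset (Finset V)).filter fun T => G.IsNClique n T).card * 2 ^ n := by
    refine Finset.card_biUnion_le_card_mul _ _ _ fun T hT => ?_
    rw [Finset.card_powerset, (Finset.mem_filter.1 hT).2.card_eq]
  have h4 := (h1.le.trans (Finset.card_le_card h2)).trans h3
  rw [mul_comm]
  exact_mod_cast h4

/-! ### posets -/

/-- order complexes -/
theorem pcol_ord (k : ℕ) (P : Type) [PartialOrder P] (rk : P → ℕ) (hrk : StrictMono rk)
    (hd : ∀ x, rk x < 2 * k)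
    (hsq : ∀ x x' y y' : P, Even (rk x) → rk x' = rk x → rk y = rk x + 1 → rk y' = rk x + 1 →
      x < y → x < y' → x' < y → x' < y' → x = x' ∨ y = y') :
    PCol k (Pool.Agent.N13.SV.ordG P) rk := by
  have hlt : ∀ x y : P, (Pool.Agent.N13.SV.ordG P).Adj x y → rk x < rk y → x < y := by
    rintro x y (h | h) h1
    · exact h
    · exact absurd (hrk h) (by omega)
  refine ⟨hd, ?_, ?_⟩
  · rintro x y (h | h)
    · exact (hrk h).ne
    · exact (hrk h).ne'
  · intro x x' y y' h1 h2 h3 h4 h5 h6 h7 h8
    exact hsq x x' y y' h1 h2 h3 h4 (hlt _ _ h5 (by omega)) (hlt _ _ h6 (by omega))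
      (hlt _ _ h7 (by omega)) (hlt _ _ h8 (by omega))

/-- barycentric subdivisions -/
theorem pcol_bary (k : ℕ) (X : Type) (K : Finset (Finset X))
    (hK : ∀ σ ∈ K, σ.Nonempty ∧ σ.card ≤ 2 * k) :
    PCol k (Pool.Agent.N13.SV.ordG K) fun σ => (σ : Finset X).card - 1 := by
  refine pcol_ord k K (fun σ => (σ : Finset X).card - 1) ?_ ?_ ?_
  · intro σ τ h
    have h1 : (σ : Finset X).card < (τ : Finset X).card := Finset.card_lt_card h
    have h2 := Finset.card_pos.2 (hK σ σ.2).1
    show _ - 1 < _ - 1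
    omega
  · intro σ
    have h1 := (hK σ σ.2).2
    have h2 := Finset.card_pos.2 (hK σ σ.2).1
    show _ - 1 < _
    omega
  · intro x x' y y' _ h1 h2 h3 l1 l2 l3 l4
    by_contra hcon
    push Not at hcon
    have c1 := Finset.card_pos.2 (hK x x.2).1
    have c2 := Finset.card_pos.2 (hK x' x'.2).1
    have c3 := Finset.card_pos.2 (hK y y.2).1
    have c4 := Finset.card_pos.2 (hK y' y'.2).1
    change (x' : Finset X).card - 1 = (x : Finset X).card - 1 at h1
    change (y : Finset X).card - 1 = (x : Finset X).card - 1 + 1 at h2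
    change (y' : Finset X).card - 1 = (x : Finset X).card - 1 + 1 at h3
    have s1 : (x : Finset X) ⊆ y := l1.le
    have s2 : (x : Finset X) ⊆ y' := l2.le
    have s3 : (x' : Finset X) ⊆ y := l3.le
    have s4 : (x' : Finset X) ⊆ y' := l4.le
    have hlt : (x : Finset X) ⊂ (x : Finset X) ∪ x' := by
      refine Finset.ssubset_iff_subset_ne.2 ⟨Finset.subset_union_left, fun h => ?_⟩
      apply hcon.1
      apply Subtype.ext
      have h5 : (x' : Finset X) ⊆ x := by
        rw [h]
        exact Finset.subset_union_right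
      exact (Finset.eq_of_subset_of_card_le h5 (by omega)).symm
    have h6 := Finset.card_lt_card hlt
    have h7 : (x : Finset X) ∪ x' = y :=
      Finset.eq_of_subset_of_card_le (Finset.union_subset s1 s3) (by omega)
    have h8 : (x : Finset X) ∪ x' = y' :=
      Finset.eq_of_subset_of_card_le (Finset.union_subset s2 s4) (by omega)
    exact hcon.2 (Subtype.ext (h7.symm.trans h8))

end Pool.Agent.N13.QC
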