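import Pool.Agent.N13.QC.Defs

/-!
Statements of the leaves of project QC, combinatorial part (Mathlib only).
-/

set_option autoImplicit false

open scoped Classical

namespace Pool.Agent.N13.QC

/-! ### QC/W: words -/

/-- `mul s` is an involution which changes the parity of the length -/
def S_W1 : Prop := ∀ (S : Type) (s : S) (w : RW S),
  RW.mul s (RW.mul s w) = w ∧ (-1 : ℝ) ^ (RW.mul s w).1.length = - (-1 : ℝ) ^ w.1.length

/-- directions are invariant under left multiplication -/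
def S_W2 : Prop := ∀ (S : Type) (s : S) (p f : RW S), dir (RW.mul s p) (RW.mul s f) = dir p f

/-- the tree property -/
def S_W3 : Prop := ∀ (S : Type) (p q f : RW S),
  (dir p f = none ↔ p = f) ∧ (p ≠ q → dir p f = dir p q ∨ dir q f = dir q p)

/-- maps of the letters -/
def S_W4 : Prop := ∀ (S T : Type) (σ : S → T) (hσ : Function.Injective σ) (s : S) (p f : RW S),
  RW.map σ hσ (RW.mul s p) = RW.mul (σ s) (RW.map σ hσ p) ∧
    dir (RW.map σ hσ p) (RW.map σ hσ f) = (dir p f).map σ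

/-! ### QC/A: walls -/

/-- the action of a letter on the walls -/
def S_A1 : Prop := ∀ (X Y : Type) (N : Y → X → Prop) (x : X) (D : Wl N) (p : RW X),
  Wl.act x (Wl.act x D) = D ∧ (Wl.act x D).y = D.y ∧
    ((Wl.act x D).mem (RW.mul x p) ↔ D.mem p) ∧
    lab (RW.mul x p) (Sum.inr (Wl.act x D)) = lab p (Sum.inr D)

/-- convexity: the first edge of a path between two points of a subtree of type `y` is a neighbour
of `y` -/
def S_A2 : Prop := ∀ (X Y : Type) (N : Y → X → Prop) (D : Wl N) (p q : RW X),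
  D.mem p → D.mem q → p ≠ q → ∃ x, dir p q = some x ∧ N D.y x

/-- the tree property for subtrees -/
def S_A3 : Prop := ∀ (X Y : Type) (N : Y → X → Prop) (D : Wl N) (p q : RW X), p ≠ q →
  ¬ (D.mem p ∧ D.mem q) → lab p (Sum.inr D) = (dir p q).map Sum.inl ∨
    lab q (Sum.inr D) = (dir q p).map Sum.inl

/-! ### QC/C: counting -/

/-- all but eight vertices are tame, for three points -/
def S_C : Prop := ∀ (X Y : Type) (N : Y → X → Prop) (g₀ g₁ g₂ : Om N),
  ∃ s : Finset (Om N), s.card ≤ 8 ∧ ∀ v : Om N, ¬ Tame N (lam v g₀) (lam v g₁) (lam v g₂) → v ∈ s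

/-! ### QC/G: the action on `Om N` -/

/-- The letters act on the vertices by involutions, the letters of `X` by `actX x (w, f) =
(x w, x f)`, the letters `y` of `Y` by `actY y (w, f) = (W_{N(y)} w, f)`. -/
def S_G : Prop := ∀ (X Y : Type) (N : Y → X → Prop),
  ∃ ax : X ⊕ Y → Om N → Om N,
    (∀ s v, ax s (ax s v) = v) ∧
    (∀ s v, eps (ax s v) = - eps v) ∧
    (∀ s u v, lam (ax s u) (ax s v) = lam u v) ∧
    (∀ s t v, Nb N s t → ax s (ax t v) = ax t (ax s v)) ∧
    (∀ x, ax (Sum.inl x) Om.o = (RW.nil, RW.mul x RW.nil)) ∧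
    (∀ y v, ax (Sum.inr y) v = (RW.mul (Wl.base N y) v.1, v.2))

/-! ### QC/K: the cocycle -/

/-- properties of the cochain which follow from the counting lemma: finite support (so that all sums
are finite), cocycle identity, degenerate values, boundedness -/
def S_K1 : Prop := ∀ (X Y : Type) (N : Y → X → Prop) (ι : Type) [Fintype ι]
  (P : ι → Option (X ⊕ Y) → Option (X ⊕ Y) → ℝ) (B : ℝ), (∀ i, Pot N (P i)) →
  (∀ a b, ∑ i, |P i a b| ≤ B) →
    (∀ i (g₀ g₁ g₂ g₃ : Om N), cc (P i) g₁ g₂ g₃ - cc (P i) g₀ g₂ g₃ + cc (P i) g₀ g₁ g₃ -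
      cc (P i) g₀ g₁ g₂ = 0) ∧
    (∀ i (g h : Om N), cc (P i) g g h = 0 ∧ cc (P i) g h h = 0) ∧
    (∀ g₀ g₁ g₂ : Om N, ∑ i, |cc (P i) g₀ g₁ g₂| ≤ 24 * B)

/-- equivariance -/
def S_K2 : Prop := ∀ (X Y : Type) (N : Y → X → Prop)
  (P : Option (X ⊕ Y) → Option (X ⊕ Y) → ℝ) (σ : Om N → Om N), (∀ v, σ (σ v) = v) →
  (∀ v, eps (σ v) = - eps v) → (∀ u v, lam (σ u) (σ v) = lam u v) →
  ∀ g₀ g₁ g₂ : Om N, cc P (σ g₀) (σ g₁) (σ g₂) = - cc P g₀ g₁ g₂

/-- the values at the base point: for adjacent `x`, `y` (in the second case `D` is the wall of `y` at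
the base point) -/
def S_K3 : Prop := ∀ (X Y : Type) (N : Y → X → Prop)
  (P : Option (X ⊕ Y) → Option (X ⊕ Y) → ℝ), Pot N P → ∀ (x : X) (y : Y), N y x →
  cc (N := N) P (RW.nil, RW.nil) (RW.nil, RW.mul x RW.nil)
      (RW.mul (Wl.base N y) RW.nil, RW.mul x RW.nil) =
    2 * P (some (Sum.inl x)) (some (Sum.inr y)) ∧
  cc (N := N) P (RW.nil, RW.nil) (RW.mul (Wl.base N y) RW.nil, RW.nil)
      (RW.mul (Wl.base N y) RW.nil, RW.mul x RW.nil) =
    2 * P (some (Sum.inr y)) (some (Sum.inl x))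

/-! ### QC/P: potentials -/

/-- a family of antisymmetric functions on the edges which are additive on 4-cycles extends to a
family of potentials -/
def S_P : Prop := ∀ (X Y : Type) (N : Y → X → Prop) (ι : Type) [Fintype ι]
  (φ : ι → X ⊕ Y → X ⊕ Y → ℝ) (B : ℝ), (∀ i a b, φ i a b = - φ i b a) →
  (∀ i a b z z', Nb N a z → Nb N z b → Nb N a z' → Nb N z' b →
    φ i a z + φ i z b = φ i a z' + φ i z' b) →
  (∀ a b, Nb N a b → ∑ i, |φ i a b| ≤ B) → 0 ≤ B →
  ∃ P : ι → Option (X ⊕ Y) → Option (X ⊕ Y) → ℝ, (∀ i, Pot N (P i)) ∧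
    (∀ i a b, Nb N a b → P i (some a) (some b) = φ i a b) ∧
    (∀ a b, ∑ i, |P i a b| ≤ 2 * B)

end Pool.Agent.N13.QC
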