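import Pool.Agent.N13.QC.Stm
import Pool.Agent.N13.QC.Defs2

/-!
Statements of the leaves of project QC, part on right-angled Coxeter groups.
-/

set_option autoImplicit false

open scoped Classical

namespace Pool.Agent.N13.QC

open Pool.Agent.W907.SG (W cox chiW)
open Pool.Agent.Q134.SV

/-- the colour is `2 i` or `2 i + 1` -/
def InP {V : Type} (col : V → ℕ) (i : ℕ) (s : V) : Prop := col s = 2 * i ∨ col s = 2 * i + 1

/-- QC/H: the cochains on `W G` -/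
def S_H : Prop := ∀ (V : Type) [Fintype V] (G : SimpleGraph V) (col : V → ℕ),
  (∀ u v, G.Adj u v → col u ≠ col v) → ∀ (i : ℕ) (ι : Type) [Fintype ι] (φ : ι → V → V → ℝ) (B : ℝ),
  (∀ j a b, φ j a b = - φ j b a) →
  (∀ j a b z z', InP col i a → InP col i b → InP col i z → InP col i z' → G.Adj a z → G.Adj z b →
    G.Adj a z' → G.Adj z' b → φ j a z + φ j z b = φ j a z' + φ j z' b) →
  (∀ a b, InP col i a → InP col i b → G.Adj a b → ∑ j, |φ j a b| ≤ B) → 0 ≤ B →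
  ∃ C : ι → W G → W G → W G → ℝ,
    (∀ j s g₀ g₁ g₂, C j (gen G s * g₀) (gen G s * g₁) (gen G s * g₂) =
      (if InP col i s then -1 else 1) * C j g₀ g₁ g₂) ∧
    (∀ j g₀ g₁ g₂ g₃, C j g₁ g₂ g₃ - C j g₀ g₂ g₃ + C j g₀ g₁ g₃ - C j g₀ g₁ g₂ = 0) ∧
    (∀ j g h, C j g g h = 0 ∧ C j g h h = 0) ∧
    (∀ g₀ g₁ g₂, ∑ j, |C j g₀ g₁ g₂| ≤ 48 * B) ∧
    (∀ j s t, G.Adj s t → C j 1 (gen G s) (gen G s * gen G t) =
      if InP col i s ∧ InP col i t then 2 * φ j s t else 0)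

/-- QC/U: products of cochains -/
def S_U : Prop := ∀ (V : Type) [Fintype V] (G : SimpleGraph V) (k : ℕ) (σ : Fin k → V → ℝ)
  (C : Fin k → W G → W G → W G → ℝ),
  (∀ i s g₀ g₁ g₂, C i (gen G s * g₀) (gen G s * g₁) (gen G s * g₂) = σ i s * C i g₀ g₁ g₂) →
  (∀ i g₀ g₁ g₂ g₃, C i g₁ g₂ g₃ - C i g₀ g₂ g₃ + C i g₀ g₁ g₃ - C i g₀ g₁ g₂ = 0) →
  (∀ i g h, C i g g h = 0 ∧ C i g h h = 0) →
    (∀ s (w : Fin (2 * k + 1) → W G), PC k C (fun i => gen G s * w i) = (∏ i, σ i s) * PC k C w) ∧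
    (∀ w : Fin (2 * k + 2) → W G, cobd (PC k C) w = 0) ∧
    (∀ (w : Fin (2 * k + 1) → W G) (i : Fin (2 * k)), w i.castSucc = w i.succ → PC k C w = 0)

/-- QC/B: the bound for families -/
def S_B : Prop := ∀ (Γ ι : Type) [Fintype ι] (k : ℕ) (K : Fin k → ℝ)
  (C : Fin k → ι → Γ → Γ → Γ → ℝ), (∀ i g₀ g₁ g₂, ∑ j, |C i j g₀ g₁ g₂| ≤ K i) →
  ∀ w : Fin (2 * k + 1) → Γ, ∑ e : Fin k → ι, |PC k (fun i => C i (e i)) w| ≤ ∏ i, K i

/-- QC/V: the pairing with a cycle -/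
def S_V : Prop := ∀ (V : Type) [Fintype V] (G : SimpleGraph V) (col : V → ℕ) (k m : ℕ)
  (C : Fin k → W G → W G → W G → ℝ) (ψ : Fin k → V → V → ℝ),
  (∀ i s g₀ g₁ g₂, C i (gen G s * g₀) (gen G s * g₁) (gen G s * g₂) =
    (if InP col (m + i) s then -1 else 1) * C i g₀ g₁ g₂) →
  (∀ i s t, G.Adj s t → C i 1 (gen G s) (gen G s * gen G t) =
    if InP col (m + i) s ∧ InP col (m + i) t then ψ i s t else 0) →
  (∀ (i : Fin k) s t, ¬ (InP col (m + i) s ∧ InP col (m + i) t) → ψ i s t = 0) →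
  ∀ a : (Fin (2 * k) → V) → ℝ, (∀ v, a v ≠ 0 → ∀ i j, i ≠ j → G.Adj (v i) (v j)) →
    pair (gen G) a (PC k C) = ∑ v : Fin (2 * k) → V, a v * PR k ψ v

/-- QC/E: evaluation of the pairing for elementary weights -/
def S_E : Prop := ∀ (V : Type) [Fintype V] (k : ℕ) (a : (Fin (2 * k) → V) → ℝ),
  (∀ (v : Fin (2 * k) → V) (i j : Fin (2 * k)), i ≠ j → a (v ∘ Equiv.swap i j) = - a v) →
  ∀ e : Fin k → V × V,
    ∑ v : Fin (2 * k) → V, a v * PR k (fun i s t =>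
      (if (s, t) = e i then 1 else 0) - (if (t, s) = e i then 1 else 0)) v = 2 ^ k * a (jn k e)

/-- QC/T: a bounded cocycle bounds the simplicial volume from below -/
def S_T : Prop := ∀ (V : Type) [Fintype V] (G : SimpleGraph V) (n : ℕ) (a : (Fin n → V) → ℝ)
  (c : (Fin (n + 1) → W G) → ℝ) (K : ℝ), Good G n c → (∀ g, |c g| ≤ K) →
  ∀ H : Subgroup (W G), H.index ≠ 0 → H ≤ (par G).ker →
    (H.index : ℝ) * |pair (gen G) a c| ≤ 2 ^ n * K * svol G n a H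

/-- QC/X: the Euler characteristic of a pure complex -/
def S_X : Prop := ∀ (V : Type) [Fintype V] (G : SimpleGraph V) (n : ℕ),
  (∀ T : Finset V, G.IsClique (T : Set V) → ∃ T' : Finset V, T ⊆ T' ∧ G.IsNClique n T') →
  |(chiW G : ℝ)| ≤ (3 / 2) ^ n *
    ((Finset.univ : Finset (Finset V)).filter fun T => G.IsNClique n T).card

/-- QC/S: sorted tuples -/
def S_S : Prop := ∀ (V : Type) [Fintype V] (G : SimpleGraph V) (col : V → ℕ) (k : ℕ),
  (∀ u v, G.Adj u v → col u ≠ col v) → (∀ v, col v < 2 * k) → ∀ a : (Fin (2 * k) → V) → ℝ,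
  (∀ v : Fin (2 * k) → V, (∀ i j, i ≠ j → G.Adj (v i) (v j)) → |a v| = 1) →
  (((Finset.univ : Finset (Finset V)).filter fun T => G.IsNClique (2 * k) T).card : ℝ) ≤
    ∑ e : Fin k → V × V, if ∀ i, col (e i).1 = 2 * i ∧ col (e i).2 = 2 * i + 1 then |a (jn k e)|
      else 0

end Pool.Agent.N13.QC
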